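import Pool.Agent.Helper93.TS.Defs

/-!
# Two-scale sums-differences: entropy bookkeeping
-/

set_option autoImplicit false

namespace Pool.Agent.Helper93.TS

open Pool.Agent.Helper8.Kak VV

variable {Ω : Type} [Fintype Ω] {p : Ω → ℝ} {V : VV → Setoid Ω}
  {eL eB eT eP eY eF eD eJ lN k α C : ℝ}

section base

variable (h : Base p V eL eB eT eP eY eF eD eJ lN)

include h

theorem Base.inc (A A' B B' : Finset VV) (hB' : B' ⊆ cl rules (A' ∪ B))
    (hA : A ⊆ cl rules A' ∩ cl rules B) : HH p V B' - HH p V B ≤ HH p V A' - HH p V A :=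
  HH_INC h.hp h.hr A A' B B' hB' hA

theorem Base.mn (A B : Finset VV) (hA : A ⊆ cl rules B) : HH p V A ≤ HH p V B :=
  HH_MN h.hp h.hr A B hA

/-- a height costs at most `2 lN` -/
theorem Base.addR (B B' : Finset VV) (hB' : B' ⊆ cl rules ({R} ∪ B)) :
    HH p V B' - HH p V B ≤ 2 * lN := by
  have i1 := h.inc ∅ {R} B B' hB' (Finset.empty_subset _)
  have i2 := HH_nonneg h.hp V ∅
  linarith [h.hTR, h.hTM]

theorem Base.addT1 (B B' : Finset VV) (hB' : B' ⊆ cl rules ({T1} ∪ B)) :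
    HH p V B' - HH p V B ≤ 2 * lN := by
  have i1 := h.inc ∅ {T1} B B' hB' (Finset.empty_subset _)
  have i2 := HH_nonneg h.hp V ∅
  linarith [h.hT1, h.hTM]

theorem Base.addB (B' B : Finset VV) (hB' : B' ⊆ cl rules ({T0, VV.B} ∪ B))
    (hA : {T0} ⊆ cl rules {T0, VV.B} ∩ cl rules B) :
    HH p V B' - HH p V B ≤ lN := by
  have i1 := h.inc {T0} {T0, VV.B} B B' hB' hA
  linarith [h.hT0, h.hBT]

/-! ### upper bounds -/

theorem Base.up1 : HH p V {l0, l1, T0} ≤ 2 * eB - eP := by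
  have i1 := h.inc {T0, P0} {l1, T0} {l0, T0} {l0, l1, T0} (by decide +kernel) (by decide +kernel)
  linarith [h.h00, h.h10, h.hP0]

theorem Base.up2 : HH p V {l0, l1, T0, T1} ≤ 3 * eB - eL - eP := by
  have i1 := h.inc {l0} {l0, T1} {l0, l1, T0} {l0, l1, T0, T1} (by decide +kernel)
    (by decide +kernel)
  linarith [h.up1, h.h01, h.hL0]

/-! ### lower bounds -/

theorem Base.addS' (A A' : Finset VV) (h1 : A' ⊆ cl rules ({l0, S} ∪ A))
    (h2 : {l0} ⊆ cl rules {l0, S} ∩ cl rules A) : HH p V A' - HH p V A ≤ eB - eL := by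
  have i1 := h.inc {l0} {l0, S} A A' h1 h2
  linarith [h.h0S, h.hL0]

theorem Base.addR' (A A' : Finset VV) (h1 : A' ⊆ cl rules ({l1, R} ∪ A))
    (h2 : {l1} ⊆ cl rules {l1, R} ∩ cl rules A) : HH p V A' - HH p V A ≤ eB - eL := by
  have i1 := h.inc {l1} {l1, R} A A' h1 h2
  linarith [h.h1R, h.hL1]

theorem Base.addT' (A A' : Finset VV) (h1 : A' ⊆ cl rules ({l0, T1} ∪ A))
    (h2 : {l0} ⊆ cl rules {l0, T1} ∩ cl rules A) : HH p V A' - HH p V A ≤ eB - eL := by
  have i1 := h.inc {l0} {l0, T1} A A' h1 h2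
  linarith [h.h01, h.hL0]

theorem Base.addB' (A A' : Finset VV) (h1 : A' ⊆ cl rules ({l0, T0, VV.B} ∪ A))
    (h2 : {l0, T0} ⊆ cl rules {l0, T0, VV.B} ∩ cl rules A) : HH p V A' - HH p V A ≤ eB - eJ := by
  have i1 := h.inc {l0, T0} {l0, T0, VV.B} A A' h1 h2
  linarith [h.h00, h.hTB0]

/-- `{l0, l1, T0, T1, S, R}` -/
theorem Base.lo1 : 5 * eB - 3 * eL - eP ≤ HH p V {l0, l1, T0, T1, S, R} := by
  have i1 := h.addB' {l0, l1, T0, T1, S, R} {l0, l1, T0, T1, S, R, VV.B} (by decide +kernel)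
    (by decide +kernel)
  linarith [h.tot]

/-- `{l0, l1, T0, T1}` -/
theorem Base.lo2 : 3 * eB - eL - eP ≤ HH p V {l0, l1, T0, T1} := by
  have i1 := h.addS' {l0, l1, T0, T1} {l0, l1, T0, T1, S} (by decide +kernel) (by decide +kernel)
  have i2 := h.addR' {l0, l1, T0, T1, S} {l0, l1, T0, T1, S, R} (by decide +kernel)
    (by decide +kernel)
  linarith [h.lo1]

/-- `{l0, l1, T0}` -/
theorem Base.lo3 : 2 * eB - eP ≤ HH p V {l0, l1, T0} := by
  have i1 := h.addT' {l0, l1, T0} {l0, l1, T0, T1} (by decide +kernel) (by decide +kernel)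
  linarith [h.lo2]

/-- `{l0, l1, T0, T1, R, B}` -/
theorem Base.lo4 : 5 * eB - 2 * eL - eP - eJ ≤ HH p V {l0, l1, T0, T1, R, VV.B} := by
  have i1 := h.addS' {l0, l1, T0, T1, R, VV.B} {l0, l1, T0, T1, S, R, VV.B} (by decide +kernel)
    (by decide +kernel)
  linarith [h.tot]

/-- `{l0, l1, T0, R, B}` -/
theorem Base.lo5 : 4 * eB - eL - eP - eJ ≤ HH p V {l0, l1, T0, R, VV.B} := by
  have i1 := h.addT' {l0, l1, T0, R, VV.B} {l0, l1, T0, T1, R, VV.B} (by decide +kernel)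
    (by decide +kernel)
  linarith [h.lo4]

/-- the increment of `S` over everything -/
theorem Base.htS : eB - eL ≤ HH p V {l0, l1, T0, T1, R, VV.B, S} - HH p V {l0, l1, T0, T1, R, VV.B} := by
  have i1 := h.mn {l0, l1, T0, T1, S, R, VV.B} {l0, l1, T0, T1, R, VV.B, S} (by decide +kernel)
  have i2 := h.addR' {l0, l1, T0, T1} {l0, l1, T0, T1, R} (by decide +kernel) (by decide +kernel)
  have i3 := h.addB' {l0, l1, T0, T1, R} {l0, l1, T0, T1, R, VV.B} (by decide +kernel)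
    (by decide +kernel)
  linarith [h.tot, h.up2]

/-- the increment of `R` over everything -/
theorem Base.htR : eB - eL ≤ HH p V {l0, l1, T0, T1, S, VV.B, R} - HH p V {l0, l1, T0, T1, S, VV.B} := by
  have i1 := h.mn {l0, l1, T0, T1, S, R, VV.B} {l0, l1, T0, T1, S, VV.B, R} (by decide +kernel)
  have i2 := h.addS' {l0, l1, T0, T1} {l0, l1, T0, T1, S} (by decide +kernel) (by decide +kernel)
  have i3 := h.addB' {l0, l1, T0, T1, S} {l0, l1, T0, T1, S, VV.B} (by decide +kernel)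
    (by decide +kernel)
  linarith [h.tot, h.up2]

/-- the increment of `T1` over `T0` -/
theorem Base.htT : eB - eL ≤ HH p V {l0, l1, T0, T1} - HH p V {l0, l1, T0} := by
  linarith [h.lo2, h.up1]

/-- the increment of `B` over everything -/
theorem Base.htB : eB - eJ ≤ HH p V {l0, l1, T0, T1, S, R, VV.B} - HH p V {l0, l1, T0, T1, S, R} := by
  have i1 := h.addS' {l0, l1, T0, T1} {l0, l1, T0, T1, S} (by decide +kernel) (by decide +kernel)
  have i2 := h.addR' {l0, l1, T0, T1, S} {l0, l1, T0, T1, S, R} (by decide +kernel)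
    (by decide +kernel)
  linarith [h.tot, h.up2]

end base

section costs

variable (h : Base p V eL eB eT eP eY eF eD eJ lN) (g : Costs p V lN k)

include h g

theorem nb : 4 * eB - 2 * eL - eP - k ≤ HH p V {l0, l1, T0, T1, b} := by
  have i1 := h.inc {b, S, T0, T1} {b, S, T0, T1, R} {l0, l1, T0, T1, b, S}
    {l0, l1, T0, T1, S, R} (by decide +kernel) (by decide +kernel)
  have i2 := h.addS' {l0, l1, T0, T1, b} {l0, l1, T0, T1, b, S} (by decide +kernel)
    (by decide +kernel)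
  linarith [h.lo1, g.cR]

theorem nR : 2 * (eB - eL) - 2 * lN - 2 * k ≤
    HH p V {l0, l1, T0, T1, b, R} - HH p V {l0, l1, T0, T1, b} := by
  have i1 := h.inc {b, R, T0, T1} {b, R, T0, T1, S} {l0, l1, T0, T1, b, R}
    {l0, l1, T0, T1, S, R} (by decide +kernel) (by decide +kernel)
  have i2 := h.inc {T0, T1} {T0, T1, b} {l0, l1, T0, T1} {l0, l1, T0, T1, b} (by decide +kernel)
    (by decide +kernel)
  linarith [h.lo1, h.up2, g.cS, g.cb]

theorem fD0 : HH p V {T0, T1, P1c, d1} - HH p V {T0, T1} ≤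
    HH p V {T0, T1, b, P1c, d1} - HH p V {T0, T1, b} + (2 * lN - (eB - eL) + 2 * k) := by
  have i1 := h.inc {T0, T1, P1c, d1} {T0, T1, b, P1c, d1} {l0, l1, T0, T1} {l0, l1, T0, T1, b}
    (by decide +kernel) (by decide +kernel)
  linarith [nb h g, h.up2, g.cb]

/-- (D) -/
theorem fD : HH p V {T0, T1, P1c, d1} - HH p V {T0, T1} ≤
    (eY - eT) + (HH p V {T0, T1, b, w} - HH p V {T0, T1, b}) + (2 * lN - (eB - eL) + 3 * k) := by
  have i1 := h.inc {w, P1c, b} {w, P1c, b, d1} {T0, T1, b, w, P1c} {T0, T1, b, P1c, d1}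
    (by decide +kernel) (by decide +kernel)
  have i2 := h.inc {T1} {T1, P1c} {T0, T1, b, w} {T0, T1, b, w, P1c} (by decide +kernel)
    (by decide +kernel)
  linarith [fD0 h g, g.cdd, h.hY1, h.hT1]

/-- left side of (R) -/
theorem fR1 : (HH p V {T0, T1, P1c, d1} - HH p V {T0, T1})
    - (HH p V {T0, T1, b, w} - HH p V {T0, T1, b}) - (2 * lN - (eB - eL) + 3 * k)
    ≤ HH p V {T0, T1, b, w, d1} - HH p V {T0, T1, b, w} := by
  have i1 := h.inc {w, b, d1} {w, b, d1, P1c} {T0, T1, b, w, d1} {T0, T1, b, P1c, d1}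
    (by decide +kernel) (by decide +kernel)
  linarith [fD0 h g, g.cP]

/-- right side of (R) -/
theorem fR2 : HH p V {T0, T1, b, w, R, PRc} - HH p V {T0, T1, b, w, R} ≤
    2 * (eY - eT) - (HH p V {T0, T1, b, w} - HH p V {T0, T1, b})
      + (2 * (2 * lN - (eB - eL)) + 4 * k) := by
  have i1 := h.mn {T0, T1, b, w, R, PRc} {T0, T1, S, R, b, PSc, PRc, w} (by decide +kernel)
  have i2 := h.inc {S} {S, PSc} {T0, T1, S, R} {T0, T1, S, R, b, PSc} (by decide +kernel)
    (by decide +kernel)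
  have i3 := h.inc {R} {R, PRc} {T0, T1, S, R, b, PSc} {T0, T1, S, R, b, PSc, PRc}
    (by decide +kernel) (by decide +kernel)
  have i4 := h.inc {T0, T1, b, w} {T0, T1, b, w, R} {l0, l1, T0, T1, b} {l0, l1, T0, T1, b, R}
    (by decide +kernel) (by decide +kernel)
  have i5 := h.inc {b, R, T0, T1} {b, R, T0, T1, S} {b, R, T0, T1} {T0, T1, S, R}
    (by decide +kernel) (by decide +kernel)
  have i6 := h.addR {T0, T1, b} {b, R, T0, T1} (by decide +kernel)
  linarith [nR h g, g.cw, g.cS, h.hYS, h.hTS, h.hYR, h.hTR]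

/-- the deficit of `R` in (R) -/
theorem fR3 : 2 * lN - (HH p V {T0, T1, b, w, l1, R} - HH p V {T0, T1, b, w, l1}) ≤
    2 * (2 * lN - (eB - eL)) + 2 * k := by
  have i4 := h.inc {T0, T1, b, w, l1} {T0, T1, b, w, l1, R} {l0, l1, T0, T1, b}
    {l0, l1, T0, T1, b, R} (by decide +kernel) (by decide +kernel)
  linarith [nR h g]

theorem nc : 5 * eB - 3 * eL - eP - 2 * lN - k ≤ HH p V {l0, l1, T0, T1, c} := by
  have i1 := h.inc {c, T0, VV.B} {c, T0, VV.B, R} {l0, l1, T0, T1, c, VV.B}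
    {l0, l1, T0, T1, R, VV.B} (by decide +kernel) (by decide +kernel)
  have i2 := h.addB {l0, l1, T0, T1, c, VV.B} {l0, l1, T0, T1, c} (by decide +kernel)
    (by decide +kernel)
  linarith [h.lo4, g.cRc, h.hJ]

theorem ncB : 4 * eB - 2 * eL - eP - lN - k ≤ HH p V {l0, l1, T0, c, VV.B} := by
  have i1 := h.inc {c, T0, VV.B} {c, T0, VV.B, R} {l0, l1, T0, c, VV.B}
    {l0, l1, T0, R, VV.B} (by decide +kernel) (by decide +kernel)
  linarith [h.lo5, g.cRc, h.hJ]

theorem nB : 2 * (eB - eL) - 3 * lN - 2 * k ≤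
    HH p V {l0, l1, T0, c, VV.B} - HH p V {l0, l1, T0, c} := by
  have i2 := h.inc {T0} {T0, c} {l0, l1, T0} {l0, l1, T0, c} (by decide +kernel)
    (by decide +kernel)
  linarith [ncB h g, h.up1, g.cc]

theorem nc0 : 4 * eB - 2 * eL - eP - 2 * lN - k ≤ HH p V {l0, l1, T0, c} := by
  have i2 := h.addB {l0, l1, T0, c, VV.B} {l0, l1, T0, c} (by decide +kernel)
    (by decide +kernel)
  linarith [ncB h g]

omit g in
theorem fU : eB + eF - eP ≤ HH p V {l1, T0, d0} := by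
  have i1 := HH_SM h.hp h.hr {l1, T0, d0} {l0, T0} {l0, l1, T0} {T0, P0, d0} (by decide +kernel)
    (by decide +kernel)
  linarith [h.lo3, h.hF0, h.h00]

theorem fUc : eL + eF - eP - (3 * (2 * lN - (eB - eL)) + 2 * k) ≤
    HH p V {l1, T0, d0, c} - HH p V {T0, c} := by
  have i1 := h.inc {l1, T0, d0} {l1, T0, d0, c} {l0, l1, T0} {l0, l1, T0, c} (by decide +kernel)
    (by decide +kernel)
  linarith [nc0 h g, fU h, h.up1, g.cc, h.hT0, h.hTM]

/-- left side of (B) -/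
theorem fB1 : eL + eF - eP - (HH p V {T0, c, W, P0c} - HH p V {T0, c})
    - (3 * (2 * lN - (eB - eL)) + 3 * k)
    ≤ HH p V {T0, c, W, P0c, d0} - HH p V {T0, c, W, P0c} := by
  have i1 := h.inc {W, c, d0} {W, c, d0, l1} {T0, c, W, P0c, d0} {l1, T0, d0, c}
    (by decide +kernel) (by decide +kernel)
  linarith [fUc h g, g.cl]

/-- right side of (B) -/
theorem fB2 : HH p V {T0, c, W, P0c, VV.B, Q} - HH p V {T0, c, W, P0c, VV.B} ≤
    (HH p V {T0, R, VV.B, PR, Q, P0c, d1} - HH p V {T0, R, VV.B})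
      - (HH p V {T0, c, W, P0c} - HH p V {T0, c}) + (2 * (2 * lN - (eB - eL)) + 4 * k) := by
  have i1 := h.inc {PR, Q, T0, R, VV.B, c} {PR, Q, T0, R, VV.B, c, W}
    {T0, R, VV.B, PR, Q, P0c, d1} {T0, c, W, P0c, VV.B, Q} (by decide +kernel) (by decide +kernel)
  have i2 := h.inc {T0, c, W, P0c} {T0, c, W, P0c, VV.B} {l0, l1, T0, c} {l0, l1, T0, c, VV.B}
    (by decide +kernel) (by decide +kernel)
  have i3 := h.inc {c, T0, VV.B} {c, T0, VV.B, R} {c, T0, VV.B} {T0, R, VV.B}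
    (by decide +kernel) (by decide +kernel)
  have i4 := h.addB {c, T0, VV.B} {T0, c} (by decide +kernel) (by decide +kernel)
  linarith [nB h g, g.cW, g.cRc]

/-- the deficit of `B` in (B) -/
theorem fB3 : lN - (HH p V {T0, c, W, P0c, l0, VV.B} - HH p V {T0, c, W, P0c, l0}) ≤
    2 * (2 * lN - (eB - eL)) + 2 * k := by
  have i4 := h.inc {T0, c, W, P0c, l0} {T0, c, W, P0c, l0, VV.B} {l0, l1, T0, c}
    {l0, l1, T0, c, VV.B} (by decide +kernel) (by decide +kernel)
  linarith [nB h g]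

/-- (A) -/
theorem fA : HH p V {T0, R, VV.B, PR, Q, P0c, d1} - HH p V {T0, R, VV.B} ≤
    (eF - eT) + (eP - eT) - (eY - eT) + (2 * (2 * lN - (eB - eL)) + 2 * k) := by
  have i1 := HH_SM h.hp h.hr {T0, R, VV.B, PR, d1, P0c} {T0, R, VV.B, Q, P0c}
    {T0, R, VV.B, PR, Q, P0c, d1} {T0, R, VV.B, P0c} (by decide +kernel) (by decide +kernel)
  have i2 := h.inc {PR, d1, R, T0} {PR, d1, R, T0, P0c} {T0, R, VV.B, PR, d1}
    {T0, R, VV.B, PR, d1, P0c} (by decide +kernel) (by decide +kernel)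
  have i3 := h.inc {R} {R, PR, d1} {T0, R, VV.B} {T0, R, VV.B, PR, d1}
    (by decide +kernel) (by decide +kernel)
  have i4 := h.inc {Q, VV.B, T0} {Q, VV.B, T0, P0c} {T0, R, VV.B, Q} {T0, R, VV.B, Q, P0c}
    (by decide +kernel) (by decide +kernel)
  have i5 := h.inc {VV.B} {VV.B, Q} {T0, R, VV.B} {T0, R, VV.B, Q}
    (by decide +kernel) (by decide +kernel)
  have i6 := h.inc {T0, P0c} {T0, R, VV.B, P0c} {l0, l1, T0} {l0, l1, T0, R, VV.B}
    (by decide +kernel) (by decide +kernel)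
  have i7 := h.addR {T0, VV.B} {T0, R, VV.B} (by decide +kernel)
  linarith [g.cPR, g.cPQ, h.hFR, h.hTR, h.hPB, h.hTB, h.hY0, h.lo5, h.up1, h.hBT, h.hJ]

/-- (C) -/
theorem fC : eL + eF - eP + eD - (8 * (2 * lN - (eB - eL)) + 7 * k) ≤
    (HH p V {T0, c, W, P0c} - HH p V {T0, c})
      + (HH p V {T0, T1, P1c, d1} - HH p V {T0, T1}) := by
  have i1 := HH_SM h.hp h.hr {T0, T1, c, W, P0c, d1} {T0, T1, c, P1c, d1}
    {T0, T1, c, W, P0c, P1c, d1} {T0, T1, c, d1} (by decide +kernel) (by decide +kernel)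
  have i2 := h.inc {W, c} {W, c, d1} {T0, T1, c, W, P0c} {T0, T1, c, W, P0c, d1}
    (by decide +kernel) (by decide +kernel)
  have i3 := h.addT1 {T0, c, W, P0c} {T0, T1, c, W, P0c} (by decide +kernel)
  have i4 := h.inc {T0} {T0, c} {T0, T1, P1c, d1} {T0, T1, c, P1c, d1}
    (by decide +kernel) (by decide +kernel)
  have i5 := h.inc {d1} {T0, T1, c, d1} {l1} {l1, T0, T1, c} (by decide +kernel)
    (by decide +kernel)
  have i6 := h.inc {T0, P0} {l0, T0} {l1, T0, T1, c} {l0, l1, T0, T1, c} (by decide +kernel)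
    (by decide +kernel)
  have i7 := h.inc {P0c, P1c, T0, T1} {P0c, P1c, T0, T1, d0} {T0, T1, c, W, P0c, P1c, d1}
    {T0, T1, c, W, P0c, P1c, d1, d0} (by decide +kernel) (by decide +kernel)
  have i8 := h.inc {W, c, d0} {W, c, d0, l1} {T0, T1, c, W, P0c, P1c, d1, d0}
    {l1, T0, T1, d0, c} (by decide +kernel) (by decide +kernel)
  have i9 := h.inc {l1, T0, d0} {l1, T0, T1, d0, c} {l0, l1, T0} {l0, l1, T0, T1, c}
    (by decide +kernel) (by decide +kernel)
  have i10 := h.addT1 {T0} {T0, T1} (by decide +kernel)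
  linarith [nc h g, fU h, g.cd1, g.cc, g.cd0, g.cl, h.hT0, h.hTM, h.hD1, h.hL1, h.h00, h.hP0,
    h.up1]

end costs

/-- the two-scale inequality from the bookkeeping -/
theorem bk (h : Base p V eL eB eT eP eY eF eD eJ lN) (g : Costs p V lN k)
    (hα : 1 ≤ α) (hC : 0 ≤ C) (hc : 0 ≤ 4 - 2 * α - 1 / α) (hk : 0 ≤ k)
    (f : Appl p V eY eT eD lN α C (2 * lN - (eB - eL))) :
    α * eL + (α - 3 + 4 / α - 1 / α ^ 2) * eD ≤ 2 * α * (eP - eT)
      + 100 * (α + C + 1) * (2 * lN - (eB - eL) + k + 1) := by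
  have hα0 : 0 < α := by linarith
  set κ := 2 * lN - (eB - eL) with hκ
  have hκ0 : 0 ≤ κ := by
    have i1 := h.addR {l1} {l1, R} (by decide +kernel)
    linarith [h.h1R, h.hL1]
  have iD := fD h g
  have iR1 := fR1 h g
  have iR2 := fR2 h g
  have iR3 := fR3 h g
  have iB1 := fB1 h g
  have iB2 := fB2 h g
  have iB3 := fB3 h g
  have iA := fA h g
  have iC := fC h g
  have s0 := f.sd0
  have sR := f.sdR
  have sB := f.sdB
  rw [← hκ] at iD iR1 iR2 iR3 iB1 iB2 iB3 iA iC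
  set X := HH p V {T0, T1, P1c, d1} - HH p V {T0, T1} with hX
  set om := HH p V {T0, T1, b, w} - HH p V {T0, T1, b} with hom
  set om2 := HH p V {T0, c, W, P0c} - HH p V {T0, c} with hom2
  set Zz := HH p V {T0, R, VV.B, PR, Q, P0c, d1} - HH p V {T0, R, VV.B} with hZ
  set Y := eY - eT with hY
  -- (R)
  have r1 : X - om - (κ + 3 * k) ≤ α * (2 * Y - om + (2 * κ + 4 * k)) + C * (2 * κ + 2 * k + 1) := by
    have a1 := mul_le_mul_of_nonneg_left iR2 hα0.le
    have a2 : C * (2 * lN - (HH p V {T0, T1, b, w, l1, R} - HH p V {T0, T1, b, w, l1}) + 1)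
        ≤ C * (2 * κ + 2 * k + 1) := mul_le_mul_of_nonneg_left (by linarith) hC
    linarith
  have r2 : α * X ≤ (3 * α - 1) * Y + 12 * (α + C + 1) * (κ + k + 1) := by
    have a1 : 0 ≤ (α - 1) * (Y + om + (κ + 3 * k) - X) := mul_nonneg (by linarith) (by linarith)
    have a2 : 0 ≤ α * κ := by positivity
    have a3 : 0 ≤ α * k := by positivity
    have a4 : 0 ≤ C * κ := by positivity
    have a5 : 0 ≤ C * k := by positivity
    nlinarith
  -- (B)
  have b1 : eL + eF - eP - om2 - (3 * κ + 3 * k)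
      ≤ α * (Zz - om2 + (2 * κ + 4 * k)) + C * (2 * κ + 2 * k + 1) := by
    have a1 := mul_le_mul_of_nonneg_left iB2 hα0.le
    have a2 : C * (lN - (HH p V {T0, c, W, P0c, l0, VV.B} - HH p V {T0, c, W, P0c, l0}) + 1)
        ≤ C * (2 * κ + 2 * k + 1) := mul_le_mul_of_nonneg_left (by linarith) hC
    linarith
  have b2 : α * eL + (α - 1) * eD ≤ 2 * α * (eP - eT) - α * Y + (α - 1) * X
      + 30 * (α + C + 1) * (κ + k + 1) := by
    have a1 : 0 ≤ (α - 1) * (om2 + X - (eL + eF - eP + eD - (8 * κ + 7 * k))) :=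
      mul_nonneg (by linarith) (by linarith)
    have a2 : 0 ≤ α * ((eF - eT) + (eP - eT) - Y + (2 * κ + 2 * k) - Zz) :=
      mul_nonneg hα0.le (by linarith)
    have a3 : 0 ≤ α * κ := by positivity
    have a4 : 0 ≤ α * k := by positivity
    have a5 : 0 ≤ C * κ := by positivity
    have a6 : 0 ≤ C * k := by positivity
    nlinarith
  -- combination
  have c1 : (α - 1) * X ≤ (α - 1) / α * ((3 * α - 1) * Y + 12 * (α + C + 1) * (κ + k + 1)) := by
    have a1 : 0 ≤ (α - 1) / α := div_nonneg (by linarith) hα0.le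
    have a2 := mul_le_mul_of_nonneg_left r2 a1
    have a3 : (α - 1) / α * (α * X) = (α - 1) * X := by field_simp
    linarith
  have c2 : (α - 1) / α * (12 * (α + C + 1) * (κ + k + 1)) ≤ 12 * (α + C + 1) * (κ + k + 1) := by
    refine mul_le_of_le_one_left (by positivity) ?_
    rw [div_le_one hα0]
    linarith
  have c3 : (4 - 2 * α - 1 / α) / α * eD ≤ (4 - 2 * α - 1 / α) * Y
      + (4 - 2 * α - 1 / α) / α * (C * (κ + 1)) := by
    have a1 : 0 ≤ (4 - 2 * α - 1 / α) / α := div_nonneg hc hα0.le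
    have a2 := mul_le_mul_of_nonneg_left s0 a1
    have a3 : (4 - 2 * α - 1 / α) / α * (α * Y) = (4 - 2 * α - 1 / α) * Y := by field_simp
    rw [mul_add, a3] at a2
    exact a2
  have c4 : (4 - 2 * α - 1 / α) / α * (C * (κ + 1)) ≤ 2 * (α + C + 1) * (κ + k + 1) := by
    have a0 : 0 < 1 / α := by positivity
    have a1 : (4 - 2 * α - 1 / α) / α ≤ 2 := by
      rw [div_le_iff₀ hα0]
      linarith
    have a2 : 0 ≤ C * (κ + 1) := by positivity
    have a3 := mul_le_mul_of_nonneg_right a1 a2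
    have a4 : 0 ≤ C * k := by positivity
    nlinarith [mul_nonneg hα0.le hκ0, mul_nonneg hα0.le hk]
  have c5 : (α - 1) / α * ((3 * α - 1) * Y) = (α - (4 - 2 * α - 1 / α)) * Y := by
    field_simp
    ring
  have c6 : (α - 3 + 4 / α - 1 / α ^ 2) * eD = (α - 1) * eD + (4 - 2 * α - 1 / α) / α * eD := by
    field_simp
    ring
  rw [mul_add] at c1
  rw [c5] at c1
  rw [c6]
  have e1 : 0 ≤ (α + C + 1) * (κ + k + 1) := by positivity
  nlinarith

end Pool.Agent.Helper93.TS
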