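import Pool.Agent.Helper93.TS.Defs

/-!
# Two-scale sums-differences: statements of the modules
-/

set_option autoImplicit false

namespace Pool.Agent.Helper93.TS

open Pool.Agent.Helper8.Kak
open MeasureTheory

/-! ### removing injectivity -/

/-- chain rule over the classes of `K` -/
def ST_CLS : Prop := ∀ (Ω : Type) [Fintype Ω] (p : Ω → ℝ), IsProb p → ∀ K : Setoid Ω,
  (∀ ω, 0 < p ω → IsProb (cnd p K ω)) ∧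
  (∀ ω ω', 0 < p ω → (0 < cnd p K ω ω' ↔ K ω ω' ∧ 0 < p ω')) ∧
  (∀ r : Setoid Ω, Ent p (K ⊓ r) - Ent p K = ∑ ω, p ω * Ent (cnd p K ω) r)

/-- class-wise injectivity suffices -/
def ST_SDC : Prop := ∀ (m : ℕ) (α : ℝ), SDu m α → SDC m α

/-- random selection of a point in every class of `R` -/
def ST_SLA : Prop := ∀ (Ω : Type) [Fintype Ω] (p : Ω → ℝ), IsProb p → (∀ ω, 0 < p ω) →
  ∀ R : Setoid Ω, ∃ (A : Type) (_ : Fintype A) (q : A → ℝ) (σ : A → Quotient R → Ω),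
    IsProb q ∧ (∀ π c, 0 < q π → Quotient.mk R (σ π c) = c) ∧
    (∀ ω, law q (fun π => σ π (Quotient.mk R ω)) ω = p ω / cls p R ω)

/-- no injectivity needed, when all points have positive probability -/
def ST_SLB : Prop := ∀ (m : ℕ) (α C : ℝ), 0 ≤ α → 0 ≤ C →
  (∀ (δ : ℝ) (M : ℕ), 0 < δ → δ ≤ 1 → 1 ≤ δ * M →
    ∀ (L : Type) (x v : L → Fin m → ℝ), (∀ l i, |v l i| ≤ 1) →
    ∀ (Ω : Type) [Fintype Ω] (p : Ω → ℝ), IsProb p →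
    ∀ (K : Setoid Ω) (l : Ω → L) (T : Ω → Fin M),
      (∀ ω ω', 0 < p ω → 0 < p ω' → K ω ω' → cell δ (v (l ω)) = cell δ (v (l ω')) → l ω = l ω') →
      Ent p (K ⊓ Setoid.ker l) - Ent p K ≤
        α * (Ent p (K ⊓ Setoid.ker T ⊓ Setoid.ker (fun ω => cell δ (pnt x v (l ω) (T ω))))
              - Ent p (K ⊓ Setoid.ker T))
        + C * (Real.log M - (Ent p (K ⊓ Setoid.ker l ⊓ Setoid.ker T) - Ent p (K ⊓ Setoid.ker l))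
              + 1)) →
  (∀ (δ : ℝ) (M : ℕ), 0 < δ → δ ≤ 1 → 1 ≤ δ * M →
    ∀ (L : Type) (x v : L → Fin m → ℝ), (∀ l i, |v l i| ≤ 1) →
    ∀ (Ω : Type) [Fintype Ω] (p : Ω → ℝ), IsProb p → (∀ ω, 0 < p ω) →
    ∀ (K : Setoid Ω) (l : Ω → L) (T : Ω → Fin M),
      Ent p (K ⊓ Setoid.ker (fun ω => cell δ (v (l ω)))) - Ent p K ≤
        α * (Ent p (K ⊓ Setoid.ker T ⊓ Setoid.ker (fun ω => cell δ (pnt x v (l ω) (T ω))))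
              - Ent p (K ⊓ Setoid.ker T))
        + C * (Real.log M - (Ent p (K ⊓ Setoid.ker l ⊓ Setoid.ker T) - Ent p (K ⊓ Setoid.ker l))
              + 1))

/-- no injectivity needed -/
def ST_SEL : Prop := ∀ (m : ℕ) (α : ℝ), 0 ≤ α → SDC m α → SDN m α

/-! ### the glued space -/

/-- relations between the coordinates of a point of the support -/
structure Lnk {m N : ℕ} (D : Dat m N) (y : Z D.Ω) : Prop where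
  lS : D.l (zS y) = D.l (z0 y)
  lT : D.l (zT y) = D.l (z0 y)
  lR : D.l (zR y) = D.l (z1 y)
  lB : D.l (zB y) = D.l (z0 y)
  t1 : D.T (z1 y) = D.T (z0 y)
  tB : Jc (D.T (zB y)) = Jc (D.T (z0 y))
  p0 : D.Pf (D.l (z1 y)) (D.T (z0 y)) = D.Pf (D.l (z0 y)) (D.T (z0 y))
  pc : D.Pc (D.l (z1 y)) (D.T (z0 y)) = D.Pc (D.l (z0 y)) (D.T (z0 y))

/-- fine cells determine coarse cells -/
def ST_FC : Prop := ∀ (m N : ℕ), 1 ≤ N → ∀ u u' : Fin m → ℝ,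
  cell (fd N) u = cell (fd N) u' → cell (cd N) u = cell (cd N) u'

/-- links and marginals -/
def ST_SPA : Prop := ∀ (m N : ℕ) (D : Dat m N),
  IsProb D.pz ∧ (∀ y, 0 < D.pz y → Lnk D y) ∧ MP D.pz D.p z0 ∧ MP D.pz D.p zS ∧ MP D.pz D.p z1 ∧
    MP D.pz D.p zR ∧ MP D.pz D.p zT ∧ MP D.pz D.p zB

/-- functional dependencies -/
def ST_SPV : Prop := ∀ (m N : ℕ) (D : Dat m N), Valid D.pz D.V rules

open VV in
/-- entropies of one coordinate -/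
def ST_SPE : Prop := ∀ (m N : ℕ) (D : Dat m N),
  (D.H {l0} = D.eL ∧ D.H {l1} = D.eL ∧ D.H {l0, T0} = D.eB ∧ D.H {l0, T1} = D.eB ∧
    D.H {l0, S} = D.eB ∧ D.H {l0, B} = D.eB ∧ D.H {l1, T0} = D.eB ∧ D.H {l1, R} = D.eB ∧
    D.H {T0} = D.eT ∧ D.H {T1} = D.eT ∧ D.H {S} = D.eT ∧ D.H {R} = D.eT ∧ D.H {B} = D.eT) ∧
  (D.H {T0, P0} = D.eP ∧ D.H {R, PR} = D.eP ∧ D.H {B, Q} = D.eP ∧ D.H {T0, P0c} = D.eY ∧
    D.H {T1, P1c} = D.eY ∧ D.H {S, PSc} = D.eY ∧ D.H {R, PRc} = D.eY ∧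
    D.H {T0, P0, d0} = D.eF ∧ D.H {T0, P0, d1} = D.eF ∧ D.H {R, PR, d1} = D.eF ∧
    D.H {d0} = D.eD ∧ D.H {d1} = D.eD)

open VV in
/-- total entropy -/
def ST_SPT : Prop := ∀ (m N : ℕ) (D : Dat m N),
  6 * D.eB - 3 * D.eL - D.eP - D.eJ ≤ D.H {l0, l1, T0, T1, S, R, B} ∧
  D.H {l0, T0, B} ≤ 2 * D.eB - D.eJ

/-- all exact entropies -/
def ST_BAS : Prop := ∀ (m N : ℕ) (D : Dat m N),
  Base D.pz D.V D.eL D.eB D.eT D.eP D.eY D.eF D.eD D.eJ (Real.log N)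

/-! ### sizes of the parameters -/

/-- `c` is not large -/
def ST_UPC : Prop := ∀ (N : ℕ) (t r b : Fin (N * N)), Jc b = Jc t →
  up (N * N) (cpar t r b) ≤ nl b t + Real.log 4

/-- `c` is not small -/
def ST_DNC : Prop := ∀ (N : ℕ) (t r b : Fin (N * N)), Jc b = Jc t →
  dn (N * N) (cpar t r b) ≤ ld r t + 2 * nl b t + Real.log 8

/-- `tau` is close to the true slope -/
def ST_TAU : Prop := ∀ (N : ℕ) (t r b : Fin (N * N)), Jc b = Jc t → r ≠ t →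
  |tau N (cpar t r b) - (((b : ℕ) : ℝ) - ((t : ℕ) : ℝ)) / (((r : ℕ) : ℝ) - ((t : ℕ) : ℝ))|
    ≤ 2 * (1 / dst r t) ^ 2 * fd N

/-- a height is recovered from `b` and the other heights -/
def ST_CES : Prop := ∀ (Ω : Type) [Fintype Ω] (p : Ω → ℝ), IsProb p → ∀ (M : ℕ) (r : Setoid Ω)
  (s t t1 rr : Ω → Fin M),
  (∀ ω ω', 0 < p ω → 0 < p ω' → r ω ω' → t ω = t ω' ∧ t1 ω = t1 ω' ∧ rr ω = rr ω' ∧
    mv (((rr ω : ℕ) : ℤ) - ((t ω : ℕ) : ℤ)) (s ω) (t ω) (t1 ω)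
      = mv (((rr ω' : ℕ) : ℤ) - ((t ω' : ℕ) : ℤ)) (s ω') (t ω') (t1 ω')) →
  CE p (Setoid.ker s) r ≤ Ex p (fun ω => ld (rr ω) (t ω)) + Ex p (fun ω => ld (t1 ω) (t ω))
    + Real.log 10

/-- sizes of distances and parameters on the glued space -/
structure Pre {m N : ℕ} (D : Dat m N) : Prop where
  hp : IsProb D.pz
  lk : ∀ y, 0 < D.pz y → Lnk D y
  κ0 : 0 ≤ D.κ
  ldS0 : Ex D.pz (fun y => ld (D.T (zS y)) (D.T (z0 y))) ≤ 5 * (D.κ + 1)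
  ldS1 : Ex D.pz (fun y => ld (D.T (zS y)) (D.T (zT y))) ≤ 5 * (D.κ + 1)
  ldR0 : Ex D.pz (fun y => ld (D.T (zR y)) (D.T (z0 y))) ≤ 5 * (D.κ + 1)
  ld10 : Ex D.pz (fun y => ld (D.T (zT y)) (D.T (z0 y))) ≤ 5 * (D.κ + 1)
  nlB0 : Ex D.pz (fun y => nl (D.T (zB y)) (D.T (z0 y))) ≤ 5 * (D.κ + 1)
  upb : Ex D.pz (fun y => up (N * N) (D.vb y)) ≤ 8 * (D.κ + 1)
  dnb : Ex D.pz (fun y => dn (N * N) (D.vb y)) ≤ 18 * (D.κ + 1)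
  upc : Ex D.pz (fun y => up (N * N) (D.vc y)) ≤ 8 * (D.κ + 1)
  dnc : Ex D.pz (fun y => dn (N * N) (D.vc y)) ≤ 18 * (D.κ + 1)

/-- the first six distances -/
def ST_PRA : Prop := ∀ (m N : ℕ) (D : Dat m N), 0 ≤ D.κ ∧
  Ex D.pz (fun y => ld (D.T (zS y)) (D.T (z0 y))) ≤ 5 * (D.κ + 1) ∧
  Ex D.pz (fun y => ld (D.T (zS y)) (D.T (zT y))) ≤ 5 * (D.κ + 1) ∧
  Ex D.pz (fun y => ld (D.T (zR y)) (D.T (z0 y))) ≤ 5 * (D.κ + 1) ∧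
  Ex D.pz (fun y => ld (D.T (zT y)) (D.T (z0 y))) ≤ 5 * (D.κ + 1)

/-- the near height -/
def ST_NCL : Prop := ∀ (m N : ℕ) (D : Dat m N),
  Ex D.pz (fun y => nl (D.T (zB y)) (D.T (z0 y))) ≤ 5 * (D.κ + 1)

def ST_PRE : Prop := ∀ (m N : ℕ) (D : Dat m N), Pre D

/-! ### the costs -/

open VV in
def ST_cR : Prop := ∀ (m N : ℕ) (D : Dat m N), D.H {b, S, T0, T1, R} - D.H {b, S, T0, T1} ≤ D.kc
open VV in
def ST_cS : Prop := ∀ (m N : ℕ) (D : Dat m N), D.H {b, R, T0, T1, S} - D.H {b, R, T0, T1} ≤ D.kc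
open VV in
def ST_cb : Prop := ∀ (m N : ℕ) (D : Dat m N),
  D.H {T0, T1, b} - D.H {T0, T1} ≤ 2 * Real.log N + D.kc
open VV in
def ST_cdd : Prop := ∀ (m N : ℕ) (D : Dat m N), D.H {w, P1c, b, d1} - D.H {w, P1c, b} ≤ D.kc
open VV in
def ST_cP : Prop := ∀ (m N : ℕ) (D : Dat m N), D.H {w, b, d1, P1c} - D.H {w, b, d1} ≤ D.kc
open VV in
def ST_cw : Prop := ∀ (m N : ℕ) (D : Dat m N),
  D.H {T0, T1, S, R, b, PSc, PRc, w} - D.H {T0, T1, S, R, b, PSc, PRc} ≤ D.kc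
open VV in
def ST_cc : Prop := ∀ (m N : ℕ) (D : Dat m N), D.H {T0, c} - D.H {T0} ≤ 2 * Real.log N + D.kc
open VV in
def ST_cRc : Prop := ∀ (m N : ℕ) (D : Dat m N), D.H {c, T0, B, R} - D.H {c, T0, B} ≤ D.kc
open VV in
def ST_cPR : Prop := ∀ (m N : ℕ) (D : Dat m N),
  D.H {PR, d1, R, T0, P0c} - D.H {PR, d1, R, T0} ≤ D.kc
open VV in
def ST_cPQ : Prop := ∀ (m N : ℕ) (D : Dat m N), D.H {Q, B, T0, P0c} - D.H {Q, B, T0} ≤ D.kc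
open VV in
def ST_cW : Prop := ∀ (m N : ℕ) (D : Dat m N),
  D.H {PR, Q, T0, R, B, c, W} - D.H {PR, Q, T0, R, B, c} ≤ D.kc
open VV in
def ST_cl : Prop := ∀ (m N : ℕ) (D : Dat m N), D.H {W, c, d0, l1} - D.H {W, c, d0} ≤ D.kc
open VV in
def ST_cd1 : Prop := ∀ (m N : ℕ) (D : Dat m N), D.H {W, c, d1} - D.H {W, c} ≤ D.kc
open VV in
def ST_cd0 : Prop := ∀ (m N : ℕ) (D : Dat m N),
  D.H {P0c, P1c, T0, T1, d0} - D.H {P0c, P1c, T0, T1} ≤ D.kc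

/-! ### the three applications -/

open VV in
/-- coarse scale -/
def ST_AP0 : Prop := ∀ (m : ℕ) (α : ℝ), SDN m α → ∃ C : ℝ, 0 ≤ C ∧ ∀ (N : ℕ) (D : Dat m N),
  D.eD ≤ α * (D.eY - D.eT) + C * (D.κ + 1) ∧
  D.H {T0, T1, b, w, d1} - D.H {T0, T1, b, w}
    ≤ α * (D.H {T0, T1, b, w, R, PRc} - D.H {T0, T1, b, w, R})
      + C * (2 * Real.log N - (D.H {T0, T1, b, w, l1, R} - D.H {T0, T1, b, w, l1}) + 1)

open VV in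
/-- inner scale -/
def ST_APB : Prop := ∀ (m : ℕ) (α : ℝ), SDN m α → ∃ C : ℝ, 0 ≤ C ∧ ∀ (N : ℕ) (D : Dat m N),
  D.H {T0, c, W, P0c, d0} - D.H {T0, c, W, P0c}
    ≤ α * (D.H {T0, c, W, P0c, B, Q} - D.H {T0, c, W, P0c, B})
      + C * (Real.log N - (D.H {T0, c, W, P0c, l0, B} - D.H {T0, c, W, P0c, l0}) + 1)

/-! ### geometry -/

/-- choice of few fine cells in every coarse cell -/
def ST_SUB : Prop := ∀ (m N : ℕ), 1 ≤ N → ∀ (D : Set (Fin m → ℝ)) (F : Finset (Fin m → ℤ)),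
  (∀ v ∈ D, (fun k => ⌊((N * N : ℕ) : ℝ) * v k⌋) ∈ F) →
  ∀ (ν : OuterMeasure (Fin m → ℝ)) (γ Bd τ : ℝ), 0 < γ → 0 < Bd →
  (∀ c : Fin m → ℝ, ν (Set.Icc c (c + fun _ => 1 / ((N * N : ℕ) : ℝ))) ≤ ENNReal.ofReal γ) →
  (∀ c : Fin m → ℝ, ν (Set.Icc c (c + fun _ => 1 / (N : ℝ))) ≤ ENNReal.ofReal (Bd * γ)) →
  ENNReal.ofReal τ ≤ ν D →
  ∃ F' ⊆ F, τ / γ ≤ F'.card ∧
    ∀ c ∈ F', ((F'.filter (fun c' => ∀ k, c' k / (N : ℤ) = c k / (N : ℤ))).card : ℝ) ≤ Bd + 1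

/-- the counting step at two scales -/
def ST_DC2 : Prop := ∀ (m N : ℕ), 1 ≤ N → ∀ (h0 : ℝ) (J : Finset ℕ)
    (t : ℕ → Set ((Fin m → ℝ) × ℝ)),
    (∀ n ∈ J, ∀ p ∈ t n, ∀ q ∈ t n, dist p q ≤ 1 / ((N * N : ℕ) : ℝ)) →
    ∀ (D : Set (Fin m → ℝ)), D ⊆ Set.Icc 0 1 → ∀ (x : (Fin m → ℝ) → (Fin m → ℝ))
    (S : (Fin m → ℝ) → Set ℝ), (∀ v ∈ D, S v ⊆ Set.Ico h0 (h0 + 1)) →
    (∀ v ∈ D, ∀ θ ∈ S v, ∃ n ∈ J, (x v + θ • v, θ) ∈ t n) →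
    ∀ (ν : OuterMeasure ℝ) (ν' : OuterMeasure (Fin m → ℝ)) (β γ Bd : ℝ), 0 < β → 0 < γ → 0 < Bd →
    (∀ a : ℝ, ν (Set.Ico a (a + 1 / ((N * N : ℕ) : ℝ))) ≤ ENNReal.ofReal β) →
    (∀ c : Fin m → ℝ, ν' (Set.Icc c (c + fun _ => 1 / ((N * N : ℕ) : ℝ))) ≤ ENNReal.ofReal γ) →
    (∀ c : Fin m → ℝ, ν' (Set.Icc c (c + fun _ => 1 / (N : ℝ))) ≤ ENNReal.ofReal (Bd * γ)) →
    ∀ (σ τ : ℝ), (∀ v ∈ D, ENNReal.ofReal σ ≤ ν (S v)) → ENNReal.ofReal τ ≤ ν' D →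
    ∃ (L : Finset ((Fin m → ℝ) × (Fin m → ℝ))) (T : (Fin m → ℝ) × (Fin m → ℝ) → Finset ℕ),
      (∀ l ∈ L, ‖l.2‖ ≤ ((N * N : ℕ) : ℝ)) ∧
      Set.InjOn (fun l : (Fin m → ℝ) × (Fin m → ℝ) => fun k => ⌊l.2 k⌋) ↑L ∧
      (∀ l ∈ L, T l ⊆ Finset.range (N * N)) ∧ (∀ l ∈ L, σ / β ≤ (T l).card) ∧
      τ / γ ≤ L.card ∧
      (∀ l ∈ L, ((L.filter (fun l' => ∀ k, ⌊l'.2 k / (N : ℝ)⌋ = ⌊l.2 k / (N : ℝ)⌋)).card : ℝ)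
        ≤ Bd + 1) ∧
      (∑ i ∈ Finset.range (N * N), (((L.filter (fun l => i ∈ T l)).image
        (fun l => fun k => ⌊l.1 k + (i : ℝ) / ((N * N : ℕ) : ℝ) * l.2 k⌋)).card : ℝ)) ≤
        J.card * (5 * 5 ^ m)

/-- from entropies to finite sets of lines -/
def ST_D3 : Prop := ∀ (m : ℕ) (α c1 : ℝ), 0 < α → 0 ≤ c1 → SD2 m α c1 → DiscIH2 m α c1

/-- from finite sets of lines to Hausdorff dimension -/
def ST_D4 : Prop := ∀ (m : ℕ) (α c1 : ℝ), 0 < α → 0 ≤ c1 → DiscIH2 m α c1 →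
  CoreDirs m (2 * α / (α + c1 / 2))

/-- from the cube to arbitrary sets of directions -/
def ST_D5 : Prop := ∀ (n : ℕ) (al : ℝ), 1 ≤ n → 0 < al → CoreDirs (n - 1) al →
  ∀ Om K : Set (EuclideanSpace ℝ (Fin n)), (∀ ω ∈ Om, ‖ω‖ = 1) → Om.Nonempty →
    (∀ ω ∈ Om, ∃ x : EuclideanSpace ℝ (Fin n), 1 ≤ dimH {t : ℝ | x + t • ω ∈ K}) →
    dimH Om / ENNReal.ofReal al + 1 ≤ dimH K

end Pool.Agent.Helper93.TS
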