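import Pool.Agent.Helper93.TS.BK
import Pool.Agent.Helper93.TS.Stmts

/-!
# Two-scale sums-differences: assembly of the two-scale inequality
-/

set_option autoImplicit false

namespace Pool.Agent.Helper93.TS

open Pool.Agent.Helper8.Kak

/-- all costs -/
structure AllCosts : Prop where
  cR : ST_cR
  cS : ST_cS
  cb : ST_cb
  cdd : ST_cdd
  cP : ST_cP
  cw : ST_cw
  cc : ST_cc
  cRc : ST_cRc
  cPR : ST_cPR
  cPQ : ST_cPQ
  cW : ST_cW
  cl : ST_cl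
  cd1 : ST_cd1
  cd0 : ST_cd0

theorem AllCosts.costs (h : AllCosts) {m N : ℕ} (D : Dat m N) :
    Costs D.pz D.V (Real.log N) D.kc where
  cR := h.cR m N D
  cS := h.cS m N D
  cb := h.cb m N D
  cdd := h.cdd m N D
  cP := h.cP m N D
  cw := h.cw m N D
  cc := h.cc m N D
  cRc := h.cRc m N D
  cPR := h.cPR m N D
  cPQ := h.cPQ m N D
  cW := h.cW m N D
  cl := h.cl m N D
  cd1 := h.cd1 m N D
  cd0 := h.cd0 m N D

/-- **the two-scale inequality** -/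
theorem sd2_of_sdn (hB : ST_BAS) (hC : AllCosts) (h0 : ST_AP0) (h1 : ST_APB) {m : ℕ} {α : ℝ}
    (hα : 1 ≤ α) (hc : 0 ≤ 4 - 2 * α - 1 / α) (h : SDN m α) :
    SD2 m α (α - 3 + 4 / α - 1 / α ^ 2) := by
  obtain ⟨C0, hC0, f0⟩ := h0 m α h
  obtain ⟨C1, hC1, f1⟩ := h1 m α h
  refine ⟨100 * (α + (C0 + C1) + 1) * (1 + 34 * (m + 1) + 1), by positivity, ?_⟩
  intro N D
  have b := hB m N D
  have g := hC.costs D
  have hκ : 0 ≤ D.κ := by
    have i1 := b.addR {VV.l1} {VV.l1, VV.R} (by decide +kernel)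
    unfold Dat.κ
    linarith [b.h1R, b.hL1]
  have hm : (0 : ℝ) ≤ (m : ℝ) := Nat.cast_nonneg _
  have hk : 0 ≤ D.kc := by
    unfold Dat.kc
    positivity
  obtain ⟨a0, aR⟩ := f0 N D
  have aB := f1 N D
  have e1 : HH D.pz D.V {VV.T0, VV.T1, VV.b, VV.w, VV.l1, VV.R}
      - HH D.pz D.V {VV.T0, VV.T1, VV.b, VV.w, VV.l1} ≤ 2 * Real.log N :=
    b.addR _ _ (by decide +kernel)
  have e2 : HH D.pz D.V {VV.T0, VV.c, VV.W, VV.P0c, VV.l0, VV.B}
      - HH D.pz D.V {VV.T0, VV.c, VV.W, VV.P0c, VV.l0} ≤ Real.log N :=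
    b.addB _ _ (by decide +kernel) (by decide +kernel)
  have ap : Appl D.pz D.V D.eY D.eT D.eD (Real.log N) α (C0 + C1)
      (2 * Real.log N - (D.eB - D.eL)) := by
    refine ⟨?_, ?_, ?_⟩
    · have e : 2 * Real.log N - (D.eB - D.eL) = D.κ := rfl
      rw [e]
      have : 0 ≤ C1 * (D.κ + 1) := by positivity
      linarith
    · refine aR.trans ?_
      have : 0 ≤ C1 * (2 * Real.log N - (HH D.pz D.V {VV.T0, VV.T1, VV.b, VV.w, VV.l1, VV.R}
        - HH D.pz D.V {VV.T0, VV.T1, VV.b, VV.w, VV.l1}) + 1) := mul_nonneg hC1 (by linarith)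
      have e : (C0 + C1) * (2 * Real.log N - (HH D.pz D.V {VV.T0, VV.T1, VV.b, VV.w, VV.l1, VV.R}
        - HH D.pz D.V {VV.T0, VV.T1, VV.b, VV.w, VV.l1}) + 1)
        = C0 * (2 * Real.log N - (HH D.pz D.V {VV.T0, VV.T1, VV.b, VV.w, VV.l1, VV.R}
        - HH D.pz D.V {VV.T0, VV.T1, VV.b, VV.w, VV.l1}) + 1)
        + C1 * (2 * Real.log N - (HH D.pz D.V {VV.T0, VV.T1, VV.b, VV.w, VV.l1, VV.R}
        - HH D.pz D.V {VV.T0, VV.T1, VV.b, VV.w, VV.l1}) + 1) := by ring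
      rw [e]
      linarith
    · refine aB.trans ?_
      have : 0 ≤ C0 * (Real.log N - (HH D.pz D.V {VV.T0, VV.c, VV.W, VV.P0c, VV.l0, VV.B}
        - HH D.pz D.V {VV.T0, VV.c, VV.W, VV.P0c, VV.l0}) + 1) := mul_nonneg hC0 (by linarith)
      have e : (C0 + C1) * (Real.log N - (HH D.pz D.V {VV.T0, VV.c, VV.W, VV.P0c, VV.l0, VV.B}
        - HH D.pz D.V {VV.T0, VV.c, VV.W, VV.P0c, VV.l0}) + 1)
        = C0 * (Real.log N - (HH D.pz D.V {VV.T0, VV.c, VV.W, VV.P0c, VV.l0, VV.B}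
        - HH D.pz D.V {VV.T0, VV.c, VV.W, VV.P0c, VV.l0}) + 1)
        + C1 * (Real.log N - (HH D.pz D.V {VV.T0, VV.c, VV.W, VV.P0c, VV.l0, VV.B}
        - HH D.pz D.V {VV.T0, VV.c, VV.W, VV.P0c, VV.l0}) + 1) := by ring
      rw [e]
      linarith
  have fin := bk b g hα (by linarith) hc hk ap
  have e : 2 * Real.log N - (D.eB - D.eL) = D.κ := rfl
  rw [e] at fin
  refine fin.trans (add_le_add le_rfl ?_)
  have e3 : D.κ + D.kc + 1 ≤ (1 + 34 * (m + 1) + 1) * (D.κ + 1) := by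
    unfold Dat.kc
    linarith
  have e4 : 0 ≤ 100 * (α + (C0 + C1) + 1) := by positivity
  calc 100 * (α + (C0 + C1) + 1) * (D.κ + D.kc + 1)
      ≤ 100 * (α + (C0 + C1) + 1) * ((1 + 34 * (m + 1) + 1) * (D.κ + 1)) :=
        mul_le_mul_of_nonneg_left e3 e4
    _ = _ := by ring

end Pool.Agent.Helper93.TS
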