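import Pool.Agent.Helper93.TS.Stmts
import Pool.Agent.Helper39.DiscD
import Pool.Agent.Helper39.DiscJ

/-!
# Arbitrary sets of directions at two scales: the core statement
-/

set_option autoImplicit false

open MeasureTheory Set Filter Topology
open scoped ENNReal NNReal

namespace Pool.Agent.Helper93.TS

open Pool.Agent.Helper39

theorem st_D4x (hDC2 : ST_DC2) : ST_D4 := by
  intro m α c1 hα hc1 h K V hV hK s hs hsV
  set al : ℝ := 2 * α / (α + c1 / 2) with hald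
  have hden : 0 < α + c1 / 2 := by positivity
  have hal : 0 < al := by positivity
  by_contra hcon
  push Not at hcon
  obtain ⟨d, hd1, hd2⟩ := ENNReal.lt_iff_exists_nnreal_btwn.1 hcon
  have hd0 : 0 < d := by
    have : (0:ℝ≥0∞) < d := lt_of_le_of_lt zero_le hd1
    exact_mod_cast this
  have hd3 : (d:ℝ) < s/al + 1 := by
    have h1 : ENNReal.ofReal (d:ℝ) < ENNReal.ofReal (s/al + 1) := by
      rwa [ENNReal.ofReal_coe_nnreal]
    exact (ENNReal.ofReal_lt_ofReal_iff (by positivity)).1 h1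
  set δ0 : ℝ := s * (α + c1 / 2) - 2 * α * ((d:ℝ) - 1) with hδ0
  have hδpos : 0 < δ0 := by
    have h1 : ((d:ℝ) - 1) < s / al := by linarith
    rw [lt_div_iff₀ hal] at h1
    have h2 : al * (α + c1 / 2) = 2 * α := by
      rw [hald]
      field_simp
    have h3 : ((d:ℝ) - 1) * al * (α + c1 / 2) < s * (α + c1 / 2) :=
      mul_lt_mul_of_pos_right h1 hden
    have h4 : ((d:ℝ) - 1) * al * (α + c1 / 2) = 2 * α * ((d:ℝ) - 1) := by
      rw [mul_assoc, h2]
      ring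
    rw [hδ0]
    linarith
  obtain ⟨η0, hη0, N0, hIH⟩ := h (δ0/4) (by positivity)
  -- the exponent of the heights
  set η : ℝ := min η0 1 with hηdef
  have hη : 0 < η := lt_min hη0 one_pos
  have hη1 : η ≤ 1 := min_le_right _ _
  have hηη0 : η ≤ η0 := min_le_left _ _
  set u : ℝ := 1 - η/4 with hu
  have hupos : 0 < u := by linarith
  have hu1 : u < 1 := by linarith
  choose! x hx using hK
  -- classes
  set W : ℤ × ℕ → Set (Fin m → ℝ) := fun kq => {v | v ∈ V ∧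
    ENNReal.ofReal (1/((kq.2:ℝ)+1)) ≤ cont ℝ u hupos ({θ : ℝ | (x v + θ • v, θ) ∈ K} ∩ Ico (kq.1:ℝ) ((kq.1:ℝ)+1))} with hW
  have hcover : V ⊆ ⋃ kq, W kq := by
    intro v hv
    have h1 : cont ℝ u hupos {θ : ℝ | (x v + θ • v, θ) ∈ K} ≠ 0 := by
      apply cont_ne_zero
      refine lt_of_lt_of_le ?_ (hx v hv)
      rw [← ENNReal.ofReal_one]
      exact (ENNReal.ofReal_lt_ofReal_iff one_pos).2 hu1
    have h2 : ∃ k : ℤ, cont ℝ u hupos ({θ : ℝ | (x v + θ • v, θ) ∈ K} ∩ Ico (k:ℝ) ((k:ℝ)+1)) ≠ 0 := by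
      by_contra hall
      push Not at hall
      apply h1
      have h3 : {θ : ℝ | (x v + θ • v, θ) ∈ K} ⊆
          ⋃ k : ℤ, ({θ : ℝ | (x v + θ • v, θ) ∈ K} ∩ Ico (k:ℝ) ((k:ℝ)+1)) := by
        intro θ hθ
        exact mem_iUnion.2 ⟨⌊θ⌋, hθ, Int.floor_le θ, Int.lt_floor_add_one θ⟩
      exact measure_mono_null h3 (measure_iUnion_null hall)
    obtain ⟨k, hk⟩ := h2
    obtain ⟨q, hq⟩ := ENNReal.exists_inv_nat_lt hk
    refine mem_iUnion.2 ⟨(k, q), hv, ?_⟩
    refine le_trans ?_ hq.le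
    rw [one_div, ENNReal.ofReal_inv_of_pos (by positivity), ENNReal.inv_le_inv,
      ← ENNReal.ofReal_natCast]
    exact ENNReal.ofReal_le_ofReal (by simp)
  obtain ⟨⟨kk, qq⟩, hkq⟩ : ∃ kq, ENNReal.ofReal s < dimH (W kq) := by
    have h1 : ENNReal.ofReal s < ⨆ kq, dimH (W kq) := by
      rw [← dimH_iUnion]
      exact hsV.trans_le (dimH_mono hcover)
    exact lt_iSup_iff.1 h1
  set WW : Set (Fin m → ℝ) := W (kk, qq) with hWW
  set q1 : ℝ := 1/((qq:ℝ)+1) with hq1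
  have hq1pos : 0 < q1 := by positivity
  have hWI : WW ⊆ Icc 0 1 := fun v hv => hV hv.1
  have hWne := cont_ne_zero hs hkq
  have hWfin : cont (Fin m → ℝ) s hs WW ≠ ∞ := by
    refine ne_top_of_le_ne_top ?_ (cont_le hs WW)
    refine ENNReal.rpow_ne_top_of_nonneg hs.le ?_
    have hb : Bornology.IsBounded (Icc (0 : Fin m → ℝ) 1) := Metric.isBounded_Icc 0 1
    exact (hb.subset hWI).ediam_ne_top
  set c0 : ℝ := (cont (Fin m → ℝ) s hs WW).toReal with hc0
  have hc0pos : 0 < c0 := ENNReal.toReal_pos hWne hWfin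
  have hc0e : cont (Fin m → ℝ) s hs WW = ENNReal.ofReal c0 := (ENNReal.ofReal_toReal hWfin).symm
  -- geometric weights
  set η' : ℝ := min (η/4) (δ0/(4*(α+c1))) with hη'
  have hαc : 0 < α + c1 := by positivity
  have hη'pos : 0 < η' := lt_min (by positivity) (by positivity)
  set r : ℝ := (2:ℝ)^(-η') with hr
  have hrpos : 0 < r := by positivity
  have hr1 : r < 1 := Real.rpow_lt_one_of_one_lt_of_neg (by norm_num) (by linarith)
  set cr : ℕ → ℝ := fun j => (1 - r)/2 * r^j with hcr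
  have hcrpos : ∀ j, 0 < cr j := fun j => by
    have : 0 < 1 - r := by linarith
    positivity
  have hcsum : ∑' j, ENNReal.ofReal (cr j) < 1 := by
    have hs : Summable cr := (summable_geometric_of_lt_one hrpos.le hr1).mul_left _
    rw [← ENNReal.ofReal_tsum_of_nonneg (fun j => (hcrpos j).le) hs]
    have : ∑' j, cr j = 1/2 := by
      simp only [hcr]
      rw [tsum_mul_left, tsum_geometric_of_lt_one hrpos.le hr1]
      have : 1 - r ≠ 0 := by linarith
      field_simp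
    rw [this, ← ENNReal.ofReal_one]
    exact (ENNReal.ofReal_lt_ofReal_iff one_pos).2 (by norm_num)
  have hrj : ∀ j : ℕ, r^j = ((2:ℝ)^j)^(-η') := by
    intro j
    rw [hr, ← Real.rpow_natCast, ← Real.rpow_mul (by norm_num), mul_comm, Real.rpow_mul (by norm_num),
      Real.rpow_natCast]
  -- the constants
  set C1 : ℝ := 2 * (2:ℝ)^(d:ℝ) * (2:ℝ)^(d:ℝ) * (5 * 5^m) with hC1
  have hC1pos : 0 < C1 := by positivity
  have h1r : 0 < 1 - r := by linarith
  set A0 : ℝ := Real.log ((1-r)/4 * c0) with hA0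
  set B : ℝ := 2 * α * Real.log C1 + c1 * Real.log 2 - (α + c1) * A0 with hB
  -- choose the scale
  have hev : ∀ᶠ i : ℕ in atTop, N0 ≤ 2^i ∧ 4/((1-r) * q1) ≤ ((2:ℝ)^i)^η ∧
      B / δ0 < Real.log ((2:ℝ)^i) := by
    refine Filter.Eventually.and ?_ (Filter.Eventually.and ?_ ?_)
    · exact (tendsto_pow_atTop_atTop_of_one_lt (by norm_num : 1 < 2)).eventually_ge_atTop N0
    · exact (tendsto_two_pow_rpow (by positivity)).eventually_ge_atTop _
    · exact (Real.tendsto_log_atTop.comp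
        (tendsto_pow_atTop_atTop_of_one_lt (by norm_num : (1:ℝ) < 2))).eventually_gt_atTop _
  obtain ⟨i0, hi0⟩ := eventually_atTop.1 hev
  set k0 : ℕ := 2 * i0 with hk0def
  obtain ⟨t, J, hKt, hJ0, hJd, hJc⟩ := exists_cover hd0 hd1 k0
  set S : ℕ → (Fin m → ℝ) → Set ℝ := fun j v => {θ | θ ∈ Ico (kk:ℝ) ((kk:ℝ)+1) ∧
    ∃ n ∈ J j, (x v + θ • v, θ) ∈ t n} with hS
  set D : ℕ → Set (Fin m → ℝ) := fun j => {v | v ∈ WW ∧
    ENNReal.ofReal (cr j) * ENNReal.ofReal q1 ≤ cont ℝ u hupos (S j v)} with hD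
  have hDcov : WW ⊆ ⋃ j, D j := by
    intro v hv
    have hsub : ({θ : ℝ | (x v + θ • v, θ) ∈ K} ∩ Ico (kk:ℝ) ((kk:ℝ)+1)) ⊆ ⋃ j, S j v := by
      rintro θ ⟨hθK, hθI⟩
      obtain ⟨j, hj⟩ := mem_iUnion.1 (hKt hθK)
      obtain ⟨n, hn1, hn2⟩ := mem_iUnion₂.1 hj
      exact mem_iUnion.2 ⟨j, hθI, n, hn1, hn2⟩
    obtain ⟨j, hj⟩ := exists_large_pieceO (cont ℝ u hupos) hsub hv.2
      (ENNReal.ofReal_pos.2 hq1pos).ne' ENNReal.ofReal_ne_top hcsum
    exact mem_iUnion.2 ⟨j, hv, hj⟩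
  obtain ⟨j, hj⟩ := exists_large_pieceO (cont (Fin m → ℝ) s hs) hDcov le_rfl hWne hWfin hcsum
  have hjk : k0 ≤ j := by
    by_contra hlt
    push Not at hlt
    have hSe : ∀ v, S j v = ∅ := by
      intro v
      simp only [hS, hJ0 j hlt]
      simp
    have hDe : D j = ∅ := by
      rw [Set.eq_empty_iff_forall_notMem]
      rintro v ⟨_, hv⟩
      rw [hSe v, measure_empty] at hv
      have : 0 < ENNReal.ofReal (cr j) * ENNReal.ofReal q1 :=
        ENNReal.mul_pos (ENNReal.ofReal_pos.2 (hcrpos j)).ne' (ENNReal.ofReal_pos.2 hq1pos).ne'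
      exact absurd hv (not_le.2 this)
    rw [hDe, measure_empty] at hj
    have : 0 < ENNReal.ofReal (cr j) * cont (Fin m → ℝ) s hs WW :=
      ENNReal.mul_pos (ENNReal.ofReal_pos.2 (hcrpos j)).ne' hWne
    exact absurd hj (not_le.2 this)
  obtain ⟨i, hji⟩ : ∃ i, i = j / 2 := ⟨_, rfl⟩
  obtain ⟨hj1, hj2, hj3⟩ := hi0 i (by omega)
  set N : ℝ := (2:ℝ)^i with hN
  have hNcast : ((2^i : ℕ) : ℝ) = N := by push_cast; rfl
  have hNpos : 0 < N := by positivity
  set Q : ℝ := N * N with hQ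
  have hQcast : ((2^i * 2^i : ℕ) : ℝ) = Q := by push_cast; rfl
  have hQr : 0 < Q := by positivity
  have hQ2 : Q = (2:ℝ)^(2*i) := by rw [hQ, hN, ← pow_add]; congr 1; ring
  have hQle : Q ≤ (2:ℝ)^j := by
    rw [hQ2]
    exact pow_le_pow_right₀ (by norm_num) (by omega)
  have hQge : (2:ℝ)^j ≤ 2 * Q := by
    rw [hQ2, ← pow_succ']
    exact pow_le_pow_right₀ (by norm_num) (by omega)
  have hN1 : 1 ≤ N := by rw [hN]; exact one_le_pow₀ (by norm_num)
  have hQ1 : 1 ≤ Q := by rw [hQ]; nlinarith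
  have hicc : ∀ (c : Fin m → ℝ) (M : ℝ), 0 < M → cont (Fin m → ℝ) s hs (Icc c (c + fun _ => 1/M)) ≤
      ENNReal.ofReal ((1/M)^s) := by
    intro c M hM
    refine (cont_le hs _).trans ?_
    rw [← ENNReal.ofReal_rpow_of_nonneg (by positivity) hs.le]
    refine ENNReal.rpow_le_rpow ?_ hs.le
    refine Metric.ediam_le (fun y hy z hz => ?_)
    rw [edist_dist]
    refine ENNReal.ofReal_le_ofReal ?_
    rw [dist_pi_le_iff (by positivity)]
    intro k
    have y1 := hy.1 k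
    have y2 := hy.2 k
    have z1 := hz.1 k
    have z2 := hz.2 k
    simp only [Pi.add_apply] at y2 z2
    rw [Real.dist_eq, abs_le]
    constructor <;> linarith
  obtain ⟨L, T, hL1, hL2, hL3, hL4, hL5, hLW, hL6⟩ := hDC2 m (2^i) (Nat.one_le_two_pow) (kk:ℝ)
    (J j) t
    (by
      intro n hn p hp q hq
      have h1 := hJd j n hn _ hp _ hq
      rw [edist_dist, ENNReal.ofReal_le_ofReal_iff (by positivity)] at h1
      rw [hQcast]
      calc dist p q ≤ (1/2)^j := h1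
        _ = 1 / (2:ℝ)^j := by rw [div_pow, one_pow]
        _ ≤ 1 / Q := one_div_le_one_div_of_le hQr hQle)
    (D j) (fun v hv => hWI hv.1) x (S j) (fun v _ θ hθ => hθ.1)
    (by
      rintro v _ θ ⟨_, n, hn1, hn2⟩
      exact ⟨n, hn1, hn2⟩)
    (cont ℝ u hupos) (cont (Fin m → ℝ) s hs) ((1/Q)^u) ((1/Q)^s) (N^s) (by positivity) (by positivity)
    (by positivity)
    (by
      intro a
      refine (cont_le hupos _).trans ?_
      rw [← ENNReal.ofReal_rpow_of_nonneg (by positivity) hupos.le]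
      refine ENNReal.rpow_le_rpow ?_ hupos.le
      rw [Real.ediam_Ico, hQcast]
      simp)
    (by
      intro c
      rw [hQcast]
      exact hicc c Q hQr)
    (by
      intro c
      rw [hNcast]
      refine (hicc c N hNpos).trans (le_of_eq ?_)
      congr 1
      rw [hQ, ← Real.mul_rpow hNpos.le (by positivity)]
      congr 1
      field_simp)
    (cr j * q1) (cr j * c0)
    (by
      intro v hv
      rw [ENNReal.ofReal_mul (hcrpos j).le]
      exact hv.2)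
    (by
      rw [ENNReal.ofReal_mul (hcrpos j).le, ← hc0e]
      exact hj)
  have hη'1 : η' ≤ 1 := by
    have : η' ≤ η/4 := min_le_left _ _
    linarith
  -- the weight at the scale `j`
  have hrjQ : 1/2 * Q^(-η') ≤ r^j := by
    rw [hrj j]
    calc 1/2 * Q^(-η') ≤ (2:ℝ)^(-η') * Q^(-η') := by
          gcongr
          calc (1/2 : ℝ) = (2:ℝ)^(-1 : ℝ) := by rw [Real.rpow_neg_one]; norm_num
            _ ≤ (2:ℝ)^(-η') := Real.rpow_le_rpow_of_exponent_le (by norm_num) (by linarith)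
      _ = (2 * Q)^(-η') := by rw [Real.mul_rpow (by norm_num) hQr.le]
      _ ≤ ((2:ℝ)^j)^(-η') :=
          Real.rpow_le_rpow_of_nonpos (by positivity) hQge (by linarith)
  have hcond : ∀ l ∈ L, (((2^i * 2^i : ℕ) : ℝ))^(1-η0) ≤ (T l).card := by
    intro l hl
    refine le_trans ?_ (hL4 l hl)
    rw [hQcast]
    have e1 : (1-r)/4 * q1 * (Q^(-η') * Q^u) ≤ cr j * q1 / (1/Q)^u := by
      simp only [hcr]
      rw [one_div, Real.inv_rpow hQr.le, div_inv_eq_mul]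
      calc (1-r)/4 * q1 * (Q^(-η') * Q^u) = (1-r)/2 * (1/2 * Q^(-η')) * q1 * Q^u := by ring
        _ ≤ (1-r)/2 * r^j * q1 * Q^u := by gcongr
    refine le_trans ?_ e1
    rw [← Real.rpow_add hQr]
    have hQη : Q^(η/2) = N^η := by
      rw [hQ, Real.mul_rpow hNpos.le hNpos.le, ← Real.rpow_add hNpos]
      congr 1
      ring
    have e3 : Q^(1-η0) * Q^(η/2) ≤ Q^(-η' + u) := by
      rw [← Real.rpow_add hQr]
      apply Real.rpow_le_rpow_of_exponent_le hQ1
      have : η' ≤ η/4 := min_le_left _ _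
      rw [hu]
      linarith
    have e4 : Q^(1-η0) * (4/((1-r) * q1)) ≤ Q^(-η' + u) :=
      (mul_le_mul_of_nonneg_left (hj2.trans (le_of_eq hQη.symm)) (by positivity)).trans e3
    calc Q^(1-η0) = (1-r)/4 * q1 * (Q^(1-η0) * (4/((1-r) * q1))) := by field_simp
      _ ≤ (1-r)/4 * q1 * Q^(-η' + u) := by gcongr
  have hlow : (1-r)/4 * c0 * Q^(s - η') ≤ L.card := by
    refine le_trans ?_ hL5
    rw [one_div, Real.inv_rpow hQr.le, div_inv_eq_mul]
    have e4 : Q^(s - η') = Q^s * Q^(-η') := by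
      rw [sub_eq_add_neg, Real.rpow_add hQr]
    simp only [hcr]
    rw [e4]
    calc (1-r)/4 * c0 * (Q^s * Q^(-η')) = (1-r)/2 * (1/2 * Q^(-η')) * c0 * Q^s := by ring
      _ ≤ (1-r)/2 * r^j * c0 * Q^s := by gcongr
  have hLpos : (0:ℝ) < L.card := lt_of_lt_of_le (by positivity) hlow
  have hLne : L.Nonempty := by
    rw [← Finset.card_pos]
    exact_mod_cast hLpos
  have hWb : ∀ l ∈ L, ((L.filter (fun l' => ∀ k, ⌊l'.2 k / (((2^i : ℕ)) : ℝ)⌋ =
      ⌊l.2 k / (((2^i : ℕ)) : ℝ)⌋)).card : ℝ) ≤ 2 * N^s := by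
    intro l hl
    refine (hLW l hl).trans ?_
    have : 1 ≤ N^s := Real.one_le_rpow hN1 hs.le
    linarith
  have hfinal := hIH (2^i) hj1 L T hLne hL1 hL2 hL3 hcond (2 * N^s) hWb
  rw [hQcast] at hfinal
  rw [hQcast] at hL6
  set SS : ℝ := ∑ i_1 ∈ Finset.range (2^i * 2^i), (((L.filter (fun l => i_1 ∈ T l)).image
          (fun l => fun k => ⌊l.1 k + (i_1:ℝ)/Q * l.2 k⌋)).card : ℝ) with hSS
  have hJcard : ((J j).card : ℝ) ≤ 2 * (2:ℝ)^(d:ℝ) * (2:ℝ)^(d:ℝ) * Q^(d:ℝ) := by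
    have h1 : ((J j).card : ℝ) ≤ 2 * (2:ℝ)^(d:ℝ) * ((2:ℝ)^j)^(d:ℝ) := by
      refine (hJc j).trans (le_of_eq ?_)
      rw [mul_assoc, ← Real.rpow_natCast, ← Real.rpow_mul (by norm_num), ← Real.rpow_add (by norm_num)]
      congr 2
      ring
    refine h1.trans ?_
    have h2 : ((2:ℝ)^j)^(d:ℝ) ≤ (2 * Q)^(d:ℝ) :=
      Real.rpow_le_rpow (by positivity) hQge (by positivity)
    rw [Real.mul_rpow (by norm_num) hQr.le] at h2
    calc 2 * (2:ℝ)^(d:ℝ) * ((2:ℝ)^j)^(d:ℝ) ≤ 2 * (2:ℝ)^(d:ℝ) * ((2:ℝ)^(d:ℝ) * Q^(d:ℝ)) := by gcongr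
      _ = _ := by ring
  have hSSn : 1 ≤ SS := by
    obtain ⟨l, hl⟩ := hLne
    have h1 : (0:ℝ) < (T l).card := lt_of_lt_of_le (by rw [hQcast]; positivity) (hcond l hl)
    have h2 : (T l).Nonempty := by
      rw [← Finset.card_pos]
      exact_mod_cast h1
    obtain ⟨i1, hi1⟩ := h2
    have h3 : (1:ℝ) ≤ (((L.filter (fun l => i1 ∈ T l)).image
          (fun l => fun k => ⌊l.1 k + (i1:ℝ)/Q * l.2 k⌋)).card : ℝ) := by
      have : 0 < ((L.filter (fun l => i1 ∈ T l)).image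
          (fun l => fun k => ⌊l.1 k + (i1:ℝ)/Q * l.2 k⌋)).card := by
        rw [Finset.card_pos]
        exact ⟨_, Finset.mem_image_of_mem _ (Finset.mem_filter.2 ⟨hl, hi1⟩)⟩
      exact_mod_cast this
    have h4 : ∀ f : ℕ → ℕ, f i1 ≤ ∑ i_1 ∈ Finset.range (2^i * 2^i), f i_1 := fun f =>
      Finset.single_le_sum (f := f) (fun _ _ => Nat.zero_le _) (hL3 l hl hi1)
    have h5 := h4 (fun i_1 => ((L.filter (fun l => i_1 ∈ T l)).image
          (fun l => fun k => ⌊l.1 k + (i_1:ℝ)/Q * l.2 k⌋)).card)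
    refine h3.trans ?_
    rw [hSS, ← Nat.cast_sum]
    exact Nat.cast_le.2 h5
  have hSS2 : 1/Q * SS ≤ C1 * Q^((d:ℝ)-1) := by
    have e1 : SS ≤ C1 * Q^(d:ℝ) := by
      calc SS ≤ (J j).card * (5 * 5^m) := hL6
        _ ≤ (2 * (2:ℝ)^(d:ℝ) * (2:ℝ)^(d:ℝ) * Q^(d:ℝ)) * (5 * 5^m) := by gcongr
        _ = C1 * Q^(d:ℝ) := by rw [hC1]; ring
    rw [Real.rpow_sub hQr, Real.rpow_one]
    calc 1/Q * SS ≤ 1/Q * (C1 * Q^(d:ℝ)) := by gcongr
      _ = _ := by ring
  -- logarithms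
  set X : ℝ := Real.log Q with hX
  have hXN : X = 2 * Real.log N := by
    rw [hX, hQ, Real.log_mul hNpos.ne' hNpos.ne']
    ring
  have hX0 : 0 ≤ X := Real.log_nonneg hQ1
  have l1 : A0 + (s - η') * X ≤ Real.log L.card := by
    have h1 : 0 < (1-r)/4 * c0 := by positivity
    calc A0 + (s - η') * X = Real.log ((1-r)/4 * c0 * Q^(s - η')) := by
          rw [Real.log_mul h1.ne' (by positivity), Real.log_rpow hQr]
      _ ≤ Real.log L.card := Real.log_le_log (by positivity) hlow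
  have l2 : Real.log (1/Q * SS) ≤ Real.log C1 + ((d:ℝ) - 1) * X := by
    calc Real.log (1/Q * SS) ≤ Real.log (C1 * Q^((d:ℝ)-1)) :=
          Real.log_le_log (mul_pos (one_div_pos.2 hQr) (lt_of_lt_of_le one_pos hSSn)) hSS2
      _ = _ := by rw [Real.log_mul hC1pos.ne' (by positivity), Real.log_rpow hQr]
  have l3 : Real.log (2 * N^s) = Real.log 2 + s / 2 * X := by
    rw [Real.log_mul (by norm_num) (by positivity), Real.log_rpow hNpos, hXN]
    ring
  have f1 : (α + c1) * (A0 + (s - η') * X) ≤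
      2 * α * (Real.log C1 + ((d:ℝ) - 1) * X) + c1 * (Real.log 2 + s / 2 * X) + δ0/4 * X := by
    rw [← l3]
    calc (α + c1) * (A0 + (s - η') * X) ≤ (α + c1) * Real.log L.card := by gcongr
      _ ≤ _ := hfinal
      _ ≤ _ := by gcongr
  have f2 : (α + c1) * η' ≤ δ0/4 := by
    have h1 : η' ≤ δ0/(4*(α+c1)) := min_le_right _ _
    calc (α + c1) * η' ≤ (α + c1) * (δ0/(4*(α+c1))) := by gcongr
      _ = δ0/4 := by field_simp
  have f3 : (α + c1) * η' * X ≤ δ0/4 * X := mul_le_mul_of_nonneg_right f2 hX0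
  have f4 : B < δ0 * Real.log N := by
    rw [div_lt_iff₀ hδpos] at hj3
    linarith
  have f5 : δ0 * X = (s * (α + c1 / 2) - 2 * α * ((d:ℝ) - 1)) * X := by rw [hδ0]
  rw [hB, show Real.log N = X / 2 by rw [hXN]; ring] at f4
  linarith [f1, f3, f4, f5]

end Pool.Agent.Helper93.TS
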