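import Pool.Agent.Helper8.Kak.L1Cost
import Pool.Agent.Helper8.Kak.Shift

/-!
# Two-scale sums-differences: definitions

A system `D : Dat m N` consists of lines in `R^m x R` with `1 / N^2`-separated directions, a random
line and a random height in `Fin (N * N)`. The coarse scale is `1 / N`.
-/

set_option autoImplicit false

namespace Pool.Agent.Helper93.TS

open Pool.Agent.Helper8.Kak

/-! ### sums-differences inequalities with weaker injectivity hypotheses -/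

/-- sums-differences; the direction cell determines the line only inside each class of `K` -/
def SDC (m : ℕ) (α : ℝ) : Prop :=
  ∃ C : ℝ, 0 ≤ C ∧ ∀ (δ : ℝ) (M : ℕ), 0 < δ → δ ≤ 1 → 1 ≤ δ * M →
    ∀ (L : Type) (x v : L → Fin m → ℝ), (∀ l i, |v l i| ≤ 1) →
    ∀ (Ω : Type) [Fintype Ω] (p : Ω → ℝ), IsProb p →
    ∀ (K : Setoid Ω) (l : Ω → L) (T : Ω → Fin M),
      (∀ ω ω', 0 < p ω → 0 < p ω' → K ω ω' → cell δ (v (l ω)) = cell δ (v (l ω')) → l ω = l ω') →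
      Ent p (K ⊓ Setoid.ker l) - Ent p K ≤
        α * (Ent p (K ⊓ Setoid.ker T ⊓ Setoid.ker (fun ω => cell δ (pnt x v (l ω) (T ω))))
              - Ent p (K ⊓ Setoid.ker T))
        + C * (Real.log M - (Ent p (K ⊓ Setoid.ker l ⊓ Setoid.ker T) - Ent p (K ⊓ Setoid.ker l))
              + 1)

/-- sums-differences without any injectivity: the entropy of the direction cell -/
def SDN (m : ℕ) (α : ℝ) : Prop :=
  ∃ C : ℝ, 0 ≤ C ∧ ∀ (δ : ℝ) (M : ℕ), 0 < δ → δ ≤ 1 → 1 ≤ δ * M →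
    ∀ (L : Type) (x v : L → Fin m → ℝ), (∀ l i, |v l i| ≤ 1) →
    ∀ (Ω : Type) [Fintype Ω] (p : Ω → ℝ), IsProb p →
    ∀ (K : Setoid Ω) (l : Ω → L) (T : Ω → Fin M),
      Ent p (K ⊓ Setoid.ker (fun ω => cell δ (v (l ω)))) - Ent p K ≤
        α * (Ent p (K ⊓ Setoid.ker T ⊓ Setoid.ker (fun ω => cell δ (pnt x v (l ω) (T ω))))
              - Ent p (K ⊓ Setoid.ker T))
        + C * (Real.log M - (Ent p (K ⊓ Setoid.ker l ⊓ Setoid.ker T) - Ent p (K ⊓ Setoid.ker l))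
              + 1)

open scoped Classical in
/-- conditional probability of the class of `ω` -/
noncomputable def cnd {Ω : Type} [Fintype Ω] (p : Ω → ℝ) (K : Setoid Ω) (ω ω' : Ω) : ℝ :=
  if K ω ω' then p ω' / cls p K ω else 0

/-! ### systems -/

/-- the fine scale -/
noncomputable def fd (N : ℕ) : ℝ := 1 / ((N * N : ℕ) : ℝ)

/-- the coarse scale -/
noncomputable def cd (N : ℕ) : ℝ := 1 / (N : ℝ)

/-- the coarse cell of a height -/
def Jc {N : ℕ} (t : Fin (N * N)) : Fin N := ⟨t / N, Nat.div_lt_of_lt_mul t.2⟩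

/-- the height inside its coarse cell -/
def In {N : ℕ} (t : Fin (N * N)) : Fin N :=
  ⟨t % N, Nat.mod_lt _ (Nat.pos_of_ne_zero fun h => by subst h; exact t.elim0)⟩

/-- a system of lines with `1 / N^2`-separated directions, with `N * N` heights -/
structure Dat (m N : ℕ) where
  L : Type
  x : L → Fin m → ℝ
  v : L → Fin m → ℝ
  hN : 1 ≤ N
  hv : ∀ l i, |v l i| ≤ 1
  hinj : Function.Injective (fun l => cell (fd N) (v l))
  Ω : Type
  fin : Fintype Ω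
  p : Ω → ℝ
  hp : @IsProb Ω fin p
  l : Ω → L
  T : Ω → Fin (N * N)

attribute [instance] Dat.fin

/-! ### the sample space: two lines through a common fine point -/

/-- the sample space: `((T1, ((l0, S), (l1, R))), B)` -/
abbrev Z (Ω : Type) : Type := (Ω × ((Ω × Ω) × (Ω × Ω))) × Ω

section coords

variable {Ω : Type}

/-- line 0, height `T0` -/
def z0 (y : Z Ω) : Ω := y.1.2.1.1
/-- line 0, height `S` -/
def zS (y : Z Ω) : Ω := y.1.2.1.2
/-- line 1, height `T0` -/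
def z1 (y : Z Ω) : Ω := y.1.2.2.1
/-- line 1, height `R` -/
def zR (y : Z Ω) : Ω := y.1.2.2.2
/-- line 0, height `T1` -/
def zT (y : Z Ω) : Ω := y.1.1
/-- line 0, height `B`, in the coarse cell of `T0` -/
def zB (y : Z Ω) : Ω := y.2

end coords

/-- link for the last coordinate: the line and the coarse cell of the height -/
def fJ {Ω L : Type} {N : ℕ} (l : Ω → L) (T : Ω → Fin (N * N)) (ω : Ω) : L × Fin N :=
  (l ω, Jc (T ω))

/-- the glued probability -/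
noncomputable def pZ {Ω L D : Type} [Fintype Ω] {N : ℕ} (p : Ω → ℝ) (l : Ω → L)
    (T : Ω → Fin (N * N)) (P : L → Fin (N * N) → D) : Z Ω → ℝ :=
  glue (pY2 p ⊤ l T P) p (fun y => fJ l T y.2.1.1) (fJ l T)

/-- logarithm of the inverse distance of two heights in the same coarse cell, at the inner scale -/
noncomputable def nl {N : ℕ} (t t' : Fin (N * N)) : ℝ := ld (In t) (In t')

/-- the parameter `c`, an approximation of `N (r - t) / (b - t)` -/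
noncomputable def cpar {N : ℕ} (t r b : Fin (N * N)) : ℤ :=
  ⌊(N : ℝ) * (((r : ℕ) : ℝ) - ((t : ℕ) : ℝ)) / (((b : ℕ) : ℝ) - ((t : ℕ) : ℝ))⌋

/-- the slope `τ = N / c` -/
noncomputable def tau (N : ℕ) (c : ℤ) : ℝ := (N : ℝ) / (c : ℝ)

/-- the random variables -/
inductive VV | l0 | l1 | T0 | T1 | S | R | B | P0 | PR | Q | P0c | P1c | PSc | PRc | d0 | d1 | b
  | w | c | W
deriving DecidableEq

open VV in
/-- functional dependencies -/
def rules : List (VV × List (Finset VV)) :=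
  [(P0, [{l0, T0}, {l1, T0}]), (PR, [{l1, R}]), (Q, [{l0, B}]), (P0c, [{l0, T0}, {P0}]),
   (P1c, [{l0, T1}]), (PSc, [{l0, S}]), (PRc, [{PR}, {l1, R}]), (d0, [{l0}]), (d1, [{l1}]),
   (b, [{T0, T1, S, R}]), (w, [{l0, l1, T1, b}]), (c, [{T0, R, B}]), (W, [{l0, l1, c}])]

namespace Dat

variable {m N : ℕ} (D : Dat m N)

/-- fine cell of the point of `l` at height `t` -/
noncomputable def Pf (l : D.L) (t : Fin (N * N)) : Fin m → ℤ := cell (fd N) (pnt D.x D.v l t)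

/-- coarse cell of the point of `l` at height `t` -/
noncomputable def Pc (l : D.L) (t : Fin (N * N)) : Fin m → ℤ := cell (cd N) (pnt D.x D.v l t)

/-- coarse cell of the direction -/
noncomputable def dc (l : D.L) : Fin m → ℤ := cell (cd N) (D.v l)

noncomputable def eL : ℝ := Ent D.p (Setoid.ker D.l)
noncomputable def eB : ℝ := Ent D.p (Setoid.ker D.l ⊓ Setoid.ker D.T)
noncomputable def eT : ℝ := Ent D.p (Setoid.ker D.T)
noncomputable def eP : ℝ := Ent D.p (Setoid.ker D.T ⊓ Setoid.ker (fun ω => D.Pf (D.l ω) (D.T ω)))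
noncomputable def eY : ℝ := Ent D.p (Setoid.ker D.T ⊓ Setoid.ker (fun ω => D.Pc (D.l ω) (D.T ω)))
noncomputable def eF : ℝ := Ent D.p (Setoid.ker D.T ⊓
  Setoid.ker (fun ω => D.Pf (D.l ω) (D.T ω)) ⊓ Setoid.ker (fun ω => D.dc (D.l ω)))
noncomputable def eD : ℝ := Ent D.p (Setoid.ker (fun ω => D.dc (D.l ω)))
noncomputable def eJ : ℝ := Ent D.p (Setoid.ker D.l ⊓ Setoid.ker (fun ω => Jc (D.T ω)))

/-- deficit of the height -/
noncomputable def κ : ℝ := 2 * Real.log N - (D.eB - D.eL)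

/-- the glued space -/
noncomputable abbrev pz : Z D.Ω → ℝ := pZ D.p D.l D.T D.Pf

/-- the parameter `b` -/
noncomputable def vb (y : Z D.Ω) : ℤ :=
  mv (((D.T (zR y) : ℕ) : ℤ) - ((D.T (z0 y) : ℕ) : ℤ)) (D.T (zS y)) (D.T (z0 y)) (D.T (zT y))

/-- the form `w` at the coarse scale -/
noncomputable def vw (y : Z D.Ω) : Fin m → ℤ :=
  cell (cd N) (frm D.x D.v (D.l (z0 y)) (D.T (zT y)) (D.vb y) (D.v (D.l (z1 y))))

/-- the parameter `c` -/
noncomputable def vc (y : Z D.Ω) : ℤ := cpar (D.T (z0 y)) (D.T (zR y)) (D.T (zB y))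

/-- the form `W = v1 - tau v0` at the fine scale -/
noncomputable def vW (y : Z D.Ω) : Fin m → ℤ :=
  cell (fd N) (fun i => D.v (D.l (z1 y)) i - tau N (D.vc y) * D.v (D.l (z0 y)) i)

/-- the random variables -/
noncomputable def V : VV → Setoid (Z D.Ω)
  | .l0 => Setoid.ker (fun y => D.l (z0 y))
  | .l1 => Setoid.ker (fun y => D.l (z1 y))
  | .T0 => Setoid.ker (fun y => D.T (z0 y))
  | .T1 => Setoid.ker (fun y => D.T (zT y))
  | .S => Setoid.ker (fun y => D.T (zS y))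
  | .R => Setoid.ker (fun y => D.T (zR y))
  | .B => Setoid.ker (fun y => D.T (zB y))
  | .P0 => Setoid.ker (fun y => D.Pf (D.l (z0 y)) (D.T (z0 y)))
  | .PR => Setoid.ker (fun y => D.Pf (D.l (z1 y)) (D.T (zR y)))
  | .Q => Setoid.ker (fun y => D.Pf (D.l (z0 y)) (D.T (zB y)))
  | .P0c => Setoid.ker (fun y => D.Pc (D.l (z0 y)) (D.T (z0 y)))
  | .P1c => Setoid.ker (fun y => D.Pc (D.l (z0 y)) (D.T (zT y)))
  | .PSc => Setoid.ker (fun y => D.Pc (D.l (z0 y)) (D.T (zS y)))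
  | .PRc => Setoid.ker (fun y => D.Pc (D.l (z1 y)) (D.T (zR y)))
  | .d0 => Setoid.ker (fun y => D.dc (D.l (z0 y)))
  | .d1 => Setoid.ker (fun y => D.dc (D.l (z1 y)))
  | .b => Setoid.ker D.vb
  | .w => Setoid.ker D.vw
  | .c => Setoid.ker D.vc
  | .W => Setoid.ker D.vW

@[simp] theorem V_l0 (y y') : D.V .l0 y y' ↔ D.l (z0 y) = D.l (z0 y') := Iff.rfl
@[simp] theorem V_l1 (y y') : D.V .l1 y y' ↔ D.l (z1 y) = D.l (z1 y') := Iff.rfl
@[simp] theorem V_T0 (y y') : D.V .T0 y y' ↔ D.T (z0 y) = D.T (z0 y') := Iff.rfl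
@[simp] theorem V_T1 (y y') : D.V .T1 y y' ↔ D.T (zT y) = D.T (zT y') := Iff.rfl
@[simp] theorem V_S (y y') : D.V .S y y' ↔ D.T (zS y) = D.T (zS y') := Iff.rfl
@[simp] theorem V_R (y y') : D.V .R y y' ↔ D.T (zR y) = D.T (zR y') := Iff.rfl
@[simp] theorem V_B (y y') : D.V .B y y' ↔ D.T (zB y) = D.T (zB y') := Iff.rfl
@[simp] theorem V_P0 (y y') : D.V .P0 y y' ↔
  D.Pf (D.l (z0 y)) (D.T (z0 y)) = D.Pf (D.l (z0 y')) (D.T (z0 y')) := Iff.rfl
@[simp] theorem V_PR (y y') : D.V .PR y y' ↔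
  D.Pf (D.l (z1 y)) (D.T (zR y)) = D.Pf (D.l (z1 y')) (D.T (zR y')) := Iff.rfl
@[simp] theorem V_Q (y y') : D.V .Q y y' ↔
  D.Pf (D.l (z0 y)) (D.T (zB y)) = D.Pf (D.l (z0 y')) (D.T (zB y')) := Iff.rfl
@[simp] theorem V_P0c (y y') : D.V .P0c y y' ↔
  D.Pc (D.l (z0 y)) (D.T (z0 y)) = D.Pc (D.l (z0 y')) (D.T (z0 y')) := Iff.rfl
@[simp] theorem V_P1c (y y') : D.V .P1c y y' ↔
  D.Pc (D.l (z0 y)) (D.T (zT y)) = D.Pc (D.l (z0 y')) (D.T (zT y')) := Iff.rfl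
@[simp] theorem V_PSc (y y') : D.V .PSc y y' ↔
  D.Pc (D.l (z0 y)) (D.T (zS y)) = D.Pc (D.l (z0 y')) (D.T (zS y')) := Iff.rfl
@[simp] theorem V_PRc (y y') : D.V .PRc y y' ↔
  D.Pc (D.l (z1 y)) (D.T (zR y)) = D.Pc (D.l (z1 y')) (D.T (zR y')) := Iff.rfl
@[simp] theorem V_d0 (y y') : D.V .d0 y y' ↔ D.dc (D.l (z0 y)) = D.dc (D.l (z0 y')) := Iff.rfl
@[simp] theorem V_d1 (y y') : D.V .d1 y y' ↔ D.dc (D.l (z1 y)) = D.dc (D.l (z1 y')) := Iff.rfl
@[simp] theorem V_b (y y') : D.V .b y y' ↔ D.vb y = D.vb y' := Iff.rfl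
@[simp] theorem V_w (y y') : D.V .w y y' ↔ D.vw y = D.vw y' := Iff.rfl
@[simp] theorem V_c (y y') : D.V .c y y' ↔ D.vc y = D.vc y' := Iff.rfl
@[simp] theorem V_W (y y') : D.V .W y y' ↔ D.vW y = D.vW y' := Iff.rfl

/-- joint entropy of variables on the glued space -/
noncomputable abbrev H (A : Finset VV) : ℝ := HH D.pz D.V A

/-- common bound for the costs -/
noncomputable def kc : ℝ := 34 * (m + 1) * (D.κ + 1)

end Dat

/-! ### entropy hypotheses used by the bookkeeping -/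

open VV in
/-- the exact entropies -/
structure Base {Ω : Type} [Fintype Ω] (p : Ω → ℝ) (V : VV → Setoid Ω)
    (eL eB eT eP eY eF eD eJ lN : ℝ) : Prop where
  hp : IsProb p
  hr : Valid p V rules
  hL0 : HH p V {l0} = eL
  hL1 : HH p V {l1} = eL
  h00 : HH p V {l0, T0} = eB
  h01 : HH p V {l0, T1} = eB
  h0S : HH p V {l0, S} = eB
  h0B : HH p V {l0, B} = eB
  h10 : HH p V {l1, T0} = eB
  h1R : HH p V {l1, R} = eB
  hT0 : HH p V {T0} = eT
  hT1 : HH p V {T1} = eT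
  hTS : HH p V {S} = eT
  hTR : HH p V {R} = eT
  hTB : HH p V {B} = eT
  hP0 : HH p V {T0, P0} = eP
  hPR : HH p V {R, PR} = eP
  hPB : HH p V {B, Q} = eP
  hY0 : HH p V {T0, P0c} = eY
  hY1 : HH p V {T1, P1c} = eY
  hYS : HH p V {S, PSc} = eY
  hYR : HH p V {R, PRc} = eY
  hF0 : HH p V {T0, P0, d0} = eF
  hF1 : HH p V {T0, P0, d1} = eF
  hFR : HH p V {R, PR, d1} = eF
  hD0 : HH p V {d0} = eD
  hD1 : HH p V {d1} = eD
  tot : 6 * eB - 3 * eL - eP - eJ ≤ HH p V {l0, l1, T0, T1, S, R, B}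
  hTB0 : HH p V {l0, T0, B} ≤ 2 * eB - eJ
  hJ : eJ ≤ eL + lN
  hBT : HH p V {T0, B} ≤ eT + lN
  hTM : eT ≤ 2 * lN

open VV in
/-- the costs -/
structure Costs {Ω : Type} [Fintype Ω] (p : Ω → ℝ) (V : VV → Setoid Ω) (lN k : ℝ) : Prop where
  cR : HH p V {b, S, T0, T1, R} - HH p V {b, S, T0, T1} ≤ k
  cS : HH p V {b, R, T0, T1, S} - HH p V {b, R, T0, T1} ≤ k
  cb : HH p V {T0, T1, b} - HH p V {T0, T1} ≤ 2 * lN + k
  cdd : HH p V {w, P1c, b, d1} - HH p V {w, P1c, b} ≤ k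
  cP : HH p V {w, b, d1, P1c} - HH p V {w, b, d1} ≤ k
  cw : HH p V {T0, T1, S, R, b, PSc, PRc, w} - HH p V {T0, T1, S, R, b, PSc, PRc} ≤ k
  cc : HH p V {T0, c} - HH p V {T0} ≤ 2 * lN + k
  cRc : HH p V {c, T0, B, R} - HH p V {c, T0, B} ≤ k
  cPR : HH p V {PR, d1, R, T0, P0c} - HH p V {PR, d1, R, T0} ≤ k
  cPQ : HH p V {Q, B, T0, P0c} - HH p V {Q, B, T0} ≤ k
  cW : HH p V {PR, Q, T0, R, B, c, W} - HH p V {PR, Q, T0, R, B, c} ≤ k
  cl : HH p V {W, c, d0, l1} - HH p V {W, c, d0} ≤ k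
  cd1 : HH p V {W, c, d1} - HH p V {W, c} ≤ k
  cd0 : HH p V {P0c, P1c, T0, T1, d0} - HH p V {P0c, P1c, T0, T1} ≤ k

open VV in
/-- the three applications of the sums-differences inequality with exponent `α` -/
structure Appl {Ω : Type} [Fintype Ω] (p : Ω → ℝ) (V : VV → Setoid Ω)
    (eY eT eD lN α C κ : ℝ) : Prop where
  sd0 : eD ≤ α * (eY - eT) + C * (κ + 1)
  sdR : HH p V {T0, T1, b, w, d1} - HH p V {T0, T1, b, w}
    ≤ α * (HH p V {T0, T1, b, w, R, PRc} - HH p V {T0, T1, b, w, R})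
      + C * (2 * lN - (HH p V {T0, T1, b, w, l1, R} - HH p V {T0, T1, b, w, l1}) + 1)
  sdB : HH p V {T0, c, W, P0c, d0} - HH p V {T0, c, W, P0c}
    ≤ α * (HH p V {T0, c, W, P0c, B, Q} - HH p V {T0, c, W, P0c, B})
      + C * (lN - (HH p V {T0, c, W, P0c, l0, B} - HH p V {T0, c, W, P0c, l0}) + 1)

/-! ### the two-scale inequality -/

/-- **two-scale inequality**: `α a + c1 a' ≤ 2 α h`, where `a` is the entropy of the line, `a'` the
entropy of the coarse cell of its direction and `h` the entropy of a point -/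
def SD2 (m : ℕ) (α c1 : ℝ) : Prop :=
  ∃ C : ℝ, 0 ≤ C ∧ ∀ (N : ℕ) (D : Dat m N),
    α * D.eL + c1 * D.eD ≤ 2 * α * (D.eP - D.eT) + C * (D.κ + 1)

/-! ### geometry -/

/-- the discrete two-scale inequality for finite sets of lines -/
def DiscIH2 (m : ℕ) (α c1 : ℝ) : Prop :=
  ∀ ε : ℝ, 0 < ε → ∃ η : ℝ, 0 < η ∧ ∃ N0 : ℕ, ∀ N : ℕ, N0 ≤ N →
    ∀ (L : Finset ((Fin m → ℝ) × (Fin m → ℝ))) (T : (Fin m → ℝ) × (Fin m → ℝ) → Finset ℕ),
      L.Nonempty → (∀ l ∈ L, ‖l.2‖ ≤ ((N * N : ℕ) : ℝ)) →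
      Set.InjOn (fun l : (Fin m → ℝ) × (Fin m → ℝ) => fun k => ⌊l.2 k⌋) ↑L →
      (∀ l ∈ L, T l ⊆ Finset.range (N * N)) →
      (∀ l ∈ L, ((N * N : ℕ) : ℝ) ^ (1 - η) ≤ (T l).card) →
      ∀ W : ℝ, (∀ l ∈ L, ((L.filter (fun l' => ∀ k, ⌊l'.2 k / (N : ℝ)⌋ = ⌊l.2 k / (N : ℝ)⌋)).card : ℝ) ≤ W) →
      (α + c1) * Real.log L.card ≤
        2 * α * Real.log (1 / ((N * N : ℕ) : ℝ) * ∑ i ∈ Finset.range (N * N),
          (((L.filter (fun l => i ∈ T l)).image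
            (fun l => fun k => ⌊l.1 k + (i : ℝ) / ((N * N : ℕ) : ℝ) * l.2 k⌋)).card : ℝ))
        + c1 * Real.log W + ε * Real.log ((N * N : ℕ) : ℝ)

/-- the core statement for sets of directions in a cube -/
def CoreDirs (m : ℕ) (al : ℝ) : Prop :=
  ∀ (K : Set ((Fin m → ℝ) × ℝ)) (V : Set (Fin m → ℝ)), V ⊆ Set.Icc 0 1 →
    (∀ v ∈ V, ∃ x : Fin m → ℝ, 1 ≤ dimH {θ : ℝ | (x + θ • v, θ) ∈ K}) →
    ∀ s : ℝ, 0 < s → ENNReal.ofReal s < dimH V → ENNReal.ofReal (s / al + 1) ≤ dimH K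

end Pool.Agent.Helper93.TS
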