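import Pool.Agent.Helper93.TS.Asm

/-!
# Two-scale sums-differences: the final numbers
-/

set_option autoImplicit false

namespace Pool.Agent.Helper93.TS

open Pool.Agent.Helper8.Kak

/-- `CoreDirs` is monotone in the exponent -/
theorem CoreDirs.mono {m : ℕ} {al al' : ℝ} (hal : 0 < al) (h : al ≤ al') (hc : CoreDirs m al) :
    CoreDirs m al' := by
  intro K V hV hK s hs hsV
  refine le_trans (ENNReal.ofReal_le_ofReal ?_) (hc K V hV hK s hs hsV)
  have : s / al' ≤ s / al := div_le_div_of_nonneg_left hs.le hal h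
  linarith

theorem num_al : 0 < 2 * (1.67253 : ℝ) / (1.67253 + (1.67253 - 3 + 4 / 1.67253 - 1 / 1.67253 ^ 2) / 2)
    ∧ 2 * (1.67253 : ℝ) / (1.67253 + (1.67253 - 3 + 4 / 1.67253 - 1 / 1.67253 ^ 2) / 2)
      ≤ 1.6512 := by
  constructor <;> norm_num

/-- the final theorem from the modules -/
theorem final (hSDC : ST_SDC) (hSEL : ST_SEL) (hB : ST_BAS) (hC : AllCosts) (h0 : ST_AP0)
    (h1 : ST_APB) (d3 : ST_D3) (d4 : ST_D4) (d5 : ST_D5) {n : ℕ} (hn : 1 ≤ n)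
    (hSD : SDu (n - 1) 1.67253)
    (Om K : Set (EuclideanSpace ℝ (Fin n))) (hOm : ∀ ω ∈ Om, ‖ω‖ = 1) (hne : Om.Nonempty)
    (hK : ∀ ω ∈ Om, ∃ x : EuclideanSpace ℝ (Fin n), 1 ≤ dimH {t : ℝ | x + t • ω ∈ K}) :
    dimH Om / ENNReal.ofReal 1.6512 + 1 ≤ dimH K := by
  have a1 : SDN (n - 1) 1.67253 := hSEL _ _ (by norm_num) (hSDC _ _ hSD)
  have a2 := sd2_of_sdn hB hC h0 h1 (by norm_num) (by norm_num) a1
  have a3 := d3 (n - 1) _ _ (by norm_num) (by norm_num) a2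
  have a4 := d4 (n - 1) _ _ (by norm_num) (by norm_num) a3
  have a5 := a4.mono num_al.1 num_al.2
  exact d5 n 1.6512 hn (by norm_num) a5 Om K hOm hne hK

end Pool.Agent.Helper93.TS
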